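import Pool.Agent.Helper73.Sym.Lib

/-!
Models of ZF with standard natural numbers.
-/

namespace Pool.Agent.Helper73.Sym

set_option synthInstance.maxSize 2000

/-- a model of ZF whose natural numbers are standard -/
class StdZF (M : Type*) [Membership M M] : Prop extends IsZF M where
  std : ∃ (nat : ℕ → M) (om : M), (∀ z, ¬ z ∈ nat 0) ∧
    (∀ n z, z ∈ nat (n + 1) ↔ z ∈ nat n ∨ z = nat n) ∧ ∀ z, z ∈ om ↔ ∃ n, z = nat n

section

variable {M : Type*} [Membership M M] [StdZF M]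

noncomputable def nat (n : ℕ) : M := (StdZF.std (M := M)).choose n
noncomputable def om : M := (StdZF.std (M := M)).choose_spec.choose

theorem mem_nat_zero (z : M) : ¬ z ∈ (nat 0 : M) :=
  (StdZF.std (M := M)).choose_spec.choose_spec.1 z

theorem mem_nat_succ (n : ℕ) (z : M) : z ∈ (nat (n + 1) : M) ↔ z ∈ (nat n : M) ∨ z = nat n :=
  (StdZF.std (M := M)).choose_spec.choose_spec.2.1 n z

theorem mem_om (z : M) : z ∈ (om : M) ↔ ∃ n : ℕ, z = nat n :=
  (StdZF.std (M := M)).choose_spec.choose_spec.2.2 z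

theorem nat_mem_om (n : ℕ) : (nat n : M) ∈ (om : M) := (mem_om _).2 ⟨n, rfl⟩

theorem mem_nat (n : ℕ) (z : M) : z ∈ (nat n : M) ↔ ∃ m < n, z = nat m := by
  induction n with
  | zero => exact iff_of_false (mem_nat_zero z) (by rintro ⟨m, hm, _⟩; omega)
  | succ n ih =>
    rw [mem_nat_succ, ih]
    constructor
    · rintro (⟨m, hm, rfl⟩ | rfl)
      · exact ⟨m, by omega, rfl⟩
      · exact ⟨n, by omega, rfl⟩
    · rintro ⟨m, hm, rfl⟩
      rcases Nat.lt_succ_iff_lt_or_eq.1 hm with h | rfl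
      · exact Or.inl ⟨m, h, rfl⟩
      · exact Or.inr rfl

theorem not_mem_self {N : Type*} [Membership N N] [IsZF N] (x : N) : ¬ x ∈ x := by
  intro h
  obtain ⟨z, hz, h1⟩ := IsZF.foundation (upair x x) ⟨x, by simp⟩
  simp only [mem_upair, or_self] at hz h1
  subst hz
  exact h1 z h rfl

theorem nat_inj {m n : ℕ} : (nat m : M) = nat n ↔ m = n := by
  constructor
  · intro h
    rcases lt_trichotomy m n with h1 | h1 | h1
    · exact absurd ((mem_nat n (nat m : M)).2 ⟨m, h1, rfl⟩) (by rw [h]; exact not_mem_self _)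
    · exact h1
    · exact absurd ((mem_nat m (nat n : M)).2 ⟨n, h1, rfl⟩) (by rw [← h]; exact not_mem_self _)
  · rintro rfl; rfl

theorem nat_mem_nat {m n : ℕ} : (nat m : M) ∈ (nat n : M) ↔ m < n := by
  rw [mem_nat]
  constructor
  · rintro ⟨k, hk, h⟩
    rw [nat_inj.1 h]; exact hk
  · intro h; exact ⟨m, h, rfl⟩

/-- the number coded by an element of `om` -/
noncomputable def num (z : M) : ℕ := open Classical in
  if h : ∃ n : ℕ, z = nat n then h.choose else 0

@[simp] theorem num_nat (n : ℕ) : num (nat n : M) = n := by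
  unfold num
  have h : ∃ m : ℕ, (nat n : M) = nat m := ⟨n, rfl⟩
  rw [dif_pos h]
  exact (nat_inj.1 h.choose_spec).symm

theorem nat_num {z : M} (h : z ∈ (om : M)) : nat (num z) = z := by
  obtain ⟨n, rfl⟩ := (mem_om z).1 h
  rw [num_nat]

/-! ### finite sets -/

/-- `x` is finite: the image of a natural number under a function -/
def IsFin (x : M) : Prop :=
  ∃ n, n ∈ (om : M) ∧ ∃ f, Fn f n x ∧ ∀ y, y ∈ x → ∃ k, k ∈ n ∧ ap f k = y

instance Dfn.isFin {t : (ℕ → M) → M} [ht : DT t] : Dfn (fun v => IsFin (t v)) :=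
  Dfn.rel1 (R := IsFin) (inferInstanceAs (Dfn (fun v : ℕ → M =>
    ∃ n, n ∈ (om : M) ∧ ∃ f, Fn f n (v 0) ∧ ∀ y, y ∈ v 0 → ∃ k, k ∈ n ∧ ap f k = y))) ht

theorem exists_finite_set {s : Set M} (hs : s.Finite) :
    ∃ x : M, (∀ z, z ∈ x ↔ z ∈ s) ∧ IsFin x := by
  classical
  induction s, hs using Set.Finite.induction_on with
  | empty =>
    refine ⟨emp, by simp, nat 0, nat_mem_om 0, emp, ⟨by simp, fun a ha => absurd ha
      (mem_nat_zero a)⟩, by simp⟩
  | @insert a s _ hs ih =>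
    obtain ⟨x, hx, n, hn, f, hf, hsurj⟩ := ih
    obtain ⟨n, rfl⟩ := (mem_om n).1 hn
    set y : M := un2 x (upair a a) with hy
    have hmy : ∀ z, z ∈ y ↔ z = a ∨ z ∈ x := by
      intro z; rw [hy, mem_un2, mem_upair, or_self, or_comm]
    set g : M := un2 f (upair (op (nat n) a) (op (nat n) a)) with hg
    have hmg : ∀ c b, op c b ∈ g ↔ op c b ∈ f ∨ (c = nat n ∧ b = a) := by
      intro c b; rw [hg, mem_un2, mem_upair, or_self, op_inj]
    have hgf : Fn g (nat (n + 1)) y := by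
      constructor
      · intro z hz
        rw [hg, mem_un2, mem_upair, or_self] at hz
        rcases hz with hz | rfl
        · obtain ⟨c, hc, b, hb, rfl⟩ := hf.1 z hz
          exact ⟨c, (mem_nat_succ n c).2 (Or.inl hc), b, (hmy b).2 (Or.inr hb), rfl⟩
        · exact ⟨nat n, (mem_nat_succ n _).2 (Or.inr rfl), a, (hmy a).2 (Or.inl rfl), rfl⟩
      · intro c hc
        rcases (mem_nat_succ n c).1 hc with hc | rfl
        · refine ⟨ap f c, (hmg _ _).2 (Or.inl (ap_spec hf hc)), fun d hd => ?_⟩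
          rcases (hmg _ _).1 hd with hd | ⟨h1, _⟩
          · exact (ap_eq hf hd).symm
          · rw [h1] at hc; exact absurd hc (not_mem_self _)
        · refine ⟨a, (hmg _ _).2 (Or.inr ⟨rfl, rfl⟩), fun d hd => ?_⟩
          rcases (hmg _ _).1 hd with hd | ⟨_, h1⟩
          · obtain ⟨c, hc, b, hb, h2⟩ := hf.1 _ hd
            rw [op_inj] at h2
            rw [← h2.1] at hc
            exact absurd hc (not_mem_self _)
          · exact h1
    refine ⟨y, fun z => by rw [hmy, hx]; rfl, nat (n + 1), nat_mem_om _, g, hgf, ?_⟩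
    intro z hz
    rcases (hmy z).1 hz with rfl | hz
    · exact ⟨nat n, (mem_nat_succ n _).2 (Or.inr rfl), ap_eq hgf ((hmg _ _).2
        (Or.inr ⟨rfl, rfl⟩))⟩
    · obtain ⟨k, hk, rfl⟩ := hsurj z hz
      exact ⟨k, (mem_nat_succ n _).2 (Or.inl hk), ap_eq hgf ((hmg _ _).2
        (Or.inl (ap_spec hf hk)))⟩

theorem isFin_iff (x : M) : IsFin x ↔ {z | z ∈ x}.Finite := by
  constructor
  · rintro ⟨n, hn, f, hf, hsurj⟩
    obtain ⟨n, rfl⟩ := (mem_om n).1 hn
    refine ((Set.finite_Iio n).image (fun m => ap f (nat m))).subset ?_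
    intro z hz
    obtain ⟨k, hk, rfl⟩ := hsurj z hz
    obtain ⟨m, hm, rfl⟩ := (mem_nat n k).1 hk
    exact ⟨m, hm, rfl⟩
  · intro h
    obtain ⟨y, hy, hf⟩ := exists_finite_set h
    have : y = x := mext fun z => by rw [hy]; rfl
    rw [← this]; exact hf

end

section

variable {P G : Type} [PartialOrder P] [OrderTop P] [Group G] [MulAction G P] [SymSys P G]

end

end Pool.Agent.Helper73.Sym
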