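import Pool.Agent.Helper73.Sym.Omega

/-!
Recursion over the natural numbers and countable sets inside a model of ZF.
-/

namespace Pool.Agent.Helper73.Sym

set_option synthInstance.maxSize 2000

section

variable {M : Type*} [Membership M M] [StdZF M]

/-- successor -/
noncomputable def suc (x : M) : M := un2 x (upair x x)

theorem mem_suc (x z : M) : z ∈ suc x ↔ z ∈ x ∨ z = x := by
  rw [suc, mem_un2, mem_upair, or_self]

theorem suc_nat (n : ℕ) : suc (nat n : M) = nat (n + 1) :=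
  mext fun z => by rw [mem_suc, mem_nat_succ]

theorem emp_eq : (emp : M) = nat 0 :=
  mext fun z => iff_of_false (mem_emp z) (mem_nat_zero z)

instance DT.suc' {t : (ℕ → M) → M} [ht : DT t] : DT (fun v => suc (t v)) :=
  inferInstanceAs (DT (fun v => un2 (t v) (upair (t v) (t v))))

open Classical in
instance DT.ite' {S : (ℕ → M) → Prop} {t u : (ℕ → M) → M} [hS : Dfn S] [ht : DT t] [hu : DT u] :
    DT (fun v => if S v then t v else u v) := by
  constructor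
  have h1 : Dfn (fun v : ℕ → M => S (fun n => v (n + 1))) := hS.ren _
  have h2 := ht.out
  have h3 := hu.out
  have h4 : Dfn (fun v : ℕ → M => (S (fun n => v (n + 1)) → v 0 = t (fun n => v (n + 1))) ∧
    (¬ S (fun n => v (n + 1)) → v 0 = u (fun n => v (n + 1)))) :=
    Dfn.and (h1 := Dfn.imp (h1 := h1) (h2 := h2))
      (h2 := Dfn.imp (h1 := Dfn.not (h1 := h1)) (h2 := h3))
  refine h4.congr fun v => ?_
  by_cases h : S (fun n => v (n + 1))
  · simp [h]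
  · simp [h]

theorem rel_fn {x y : M} {R : M → M → Prop}
    [h : Dfn (fun v : ℕ → M => ∃ a, a ∈ x ∧ ∃ b, b ∈ y ∧ v 0 = op a b ∧ R a b)]
    (hR : ∀ a, a ∈ x → ∃ b, b ∈ y ∧ R a b ∧ ∀ c, c ∈ y → R a c → c = b) :
    Fn (rel x y R) x y := by
  constructor
  · intro z hz
    obtain ⟨a, ha, b, hb, h1, _⟩ := mem_rel_of hz
    exact ⟨a, ha, b, hb, h1⟩
  · intro a ha
    obtain ⟨b, hb, h1, h2⟩ := hR a ha
    refine ⟨b, (op_mem_rel x y R a b).2 ⟨ha, hb, h1⟩, fun c hc => ?_⟩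
    obtain ⟨_, h3, h4⟩ := (op_mem_rel x y R a c).1 hc
    exact h2 c h3 h4

/-! ### recursion -/

section iter

variable (t : M → M) [ht : Dfn (fun v : ℕ → M => v 0 = t (v 1))] (c : M)

/-- `y` is the `n`-th iterate, witnessed by a finite sequence -/
def IterRel (n y : M) : Prop :=
  ∃ u : M, (∃ Y : M, Fn u (suc n) Y) ∧ ap u emp = c ∧
    (∀ k : M, k ∈ n → ap u (suc k) = t (ap u k)) ∧ ap u n = y

theorem exists_seq (n : ℕ) (G : ℕ → M) :
    ∃ u Y : M, Fn u (nat (n + 1)) Y ∧ ∀ k ≤ n, ap u (nat k) = G k := by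
  obtain ⟨Y, hY, _⟩ := exists_finite_set (M := M) ((Set.finite_Iic n).image G)
  obtain ⟨u, hu, _⟩ := exists_finite_set (M := M)
    ((Set.finite_Iic n).image (fun k => op (nat k) (G k)))
  have hf : Fn u (nat (n + 1)) Y := by
    constructor
    · intro z hz
      obtain ⟨k, hk, rfl⟩ := (hu z).1 hz
      have hk' : k ≤ n := hk
      exact ⟨nat k, nat_mem_nat.2 (by omega), G k, (hY _).2 ⟨k, hk, rfl⟩, rfl⟩
    · intro a ha
      obtain ⟨k, hk, rfl⟩ := (mem_nat (n + 1) a).1 ha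
      have hk' : k ≤ n := by omega
      refine ⟨G k, (hu _).2 ⟨k, hk', rfl⟩, fun b hb => ?_⟩
      obtain ⟨l, _, h1⟩ := (hu _).1 hb
      rw [op_inj, nat_inj] at h1
      rw [← h1.2, h1.1]
  exact ⟨u, Y, hf, fun k hk => ap_eq hf ((hu _).2 ⟨k, hk, rfl⟩)⟩

omit ht in
theorem iterRel_iff (n : ℕ) (y : M) : IterRel t c (nat n) y ↔ y = t^[n] c := by
  constructor
  · rintro ⟨u, ⟨Y, hu⟩, h0, hs, rfl⟩
    have key : ∀ k ≤ n, ap u (nat k) = t^[k] c := by
      intro k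
      induction k with
      | zero => intro _; rw [← emp_eq]; exact h0
      | succ k ih =>
        intro hk
        rw [Function.iterate_succ_apply', ← ih (by omega), ← suc_nat]
        exact hs _ (nat_mem_nat.2 (by omega))
    exact key n le_rfl
  · rintro rfl
    obtain ⟨u, Y, hu, h1⟩ := exists_seq n (fun k => t^[k] c)
    refine ⟨u, ⟨Y, by rw [suc_nat]; exact hu⟩, ?_, ?_, h1 n le_rfl⟩
    · rw [emp_eq]; exact h1 0 (by omega)
    · intro k hk
      obtain ⟨m, hm, rfl⟩ := (mem_nat n k).1 hk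
      rw [suc_nat, h1 m (by omega), h1 (m + 1) (by omega), Function.iterate_succ_apply']

open Classical in
/-- the iterates of `t` started at `c` as an operation on the natural numbers of the model -/
noncomputable def iter (z : M) : M := if z ∈ (om : M) then t^[num z] c else emp

omit ht in
theorem iter_nat (n : ℕ) : iter t c (nat n) = t^[n] c := by
  rw [iter, if_pos (nat_mem_om n), num_nat]

theorem Dfn.iter : Dfn (fun v : ℕ → M => v 0 = Sym.iter t c (v 1)) := by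
  have h0 : Dfn (fun v : ℕ → M => IterRel t c (v 1) (v 0)) := by
    have h1 : ∀ (u w : (ℕ → M) → M) [DT u] [DT w], Dfn (fun v => u v = t (w v)) := by
      intro u w hu hw
      exact Dfn.rel2 (R := fun y x => y = t x) ht hu hw
    have h2 : Dfn (fun v : ℕ → M => ∀ k : M, k ∈ v 2 → ap (v 0) (suc k) = t (ap (v 0) k)) := by
      have h3 : Dfn (fun v : ℕ → M => ap (v 1) (suc (v 0)) = t (ap (v 1) (v 0))) :=
        h1 (fun v => ap (v 1) (suc (v 0))) (fun v => ap (v 1) (v 0))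
      have h4 : Dfn (fun v : ℕ → M => v 0 ∈ v 3 → ap (v 1) (suc (v 0)) = t (ap (v 1) (v 0))) :=
        Dfn.imp (h2 := h3)
      exact Dfn.all (S := fun k v => k ∈ v 2 → ap (v 0) (suc k) = t (ap (v 0) k)) (h := h4)
    have h5 : Dfn (fun v : ℕ → M => (∃ Y : M, Fn (v 0) (suc (v 2)) Y) ∧ ap (v 0) emp = c ∧
        (∀ k : M, k ∈ v 2 → ap (v 0) (suc k) = t (ap (v 0) k)) ∧ ap (v 0) (v 2) = v 1) :=
      Dfn.and (h2 := Dfn.and (h2 := Dfn.and (h1 := h2)))
    exact Dfn.ex (S := fun u v => (∃ Y : M, Fn u (suc (v 1)) Y) ∧ ap u emp = c ∧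
        (∀ k : M, k ∈ v 1 → ap u (suc k) = t (ap u k)) ∧ ap u (v 1) = v 0) (h := h5)
  have h1 : Dfn (fun v : ℕ → M => (v 1 ∈ (om : M) → IterRel t c (v 1) (v 0)) ∧
      (¬ v 1 ∈ (om : M) → v 0 = emp)) := Dfn.and (h1 := Dfn.imp (h2 := h0))
  refine h1.congr fun v => ?_
  unfold Sym.iter
  by_cases h : v 1 ∈ (om : M)
  · obtain ⟨n, hn⟩ := (mem_om _).1 h
    have hn' : (nat n : M) ∈ (om : M) := nat_mem_om n
    rw [if_pos h, hn, iterRel_iff, num_nat]
    tauto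
  · simp [h]

end iter

/-! ### countable sets -/

/-- countable: finite or countably infinite -/
def Ctb (x : M) : Prop := ∃ f : M, Fn f x (om : M) ∧
  ∀ a b : M, a ∈ x → b ∈ x → ap f a = ap f b → a = b

instance Dfn.ctb {t : (ℕ → M) → M} [ht : DT t] : Dfn (fun v => Ctb (t v)) :=
  Dfn.rel1 (R := Ctb) (inferInstanceAs (Dfn (fun v : ℕ → M => ∃ f : M, Fn f (v 0) (om : M) ∧
    ∀ a b : M, a ∈ v 0 → b ∈ v 0 → ap f a = ap f b → a = b))) ht

theorem Ctb.of_inj {x : M} (f : M → M) [h : Dfn (fun v : ℕ → M => v 0 = f (v 1))]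
    (h1 : ∀ a, a ∈ x → f a ∈ (om : M)) (h2 : ∀ a b, a ∈ x → b ∈ x → f a = f b → a = b) :
    Ctb x :=
  ⟨lam x f, lam_fn h1, fun a b ha hb hab => h2 a b ha hb (by rwa [ap_lam ha, ap_lam hb] at hab)⟩

theorem Ctb.sub {x y : M} (h : Ctb x) (hy : Sub y x) : Ctb y := by
  obtain ⟨f, hf, h1⟩ := h
  exact Ctb.of_inj (fun a => ap f a) (fun a ha => ap_mem hf (hy a ha))
    (fun a b ha hb hab => h1 a b (hy a ha) (hy b hb) hab)

/-- doubling -/
noncomputable def dbl (z : M) : M := iter (fun x => suc (suc x)) emp z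

theorem dbl_nat (n : ℕ) : dbl (nat n : M) = nat (2 * n) := by
  rw [dbl, iter_nat]
  induction n with
  | zero => exact emp_eq
  | succ n ih => rw [Function.iterate_succ_apply', ih, suc_nat, suc_nat]; rfl

instance DT.dbl' {t : (ℕ → M) → M} [ht : DT t] : DT (fun v => dbl (t v)) :=
  DT.app1 (f := dbl) (Dfn.iter (fun x => suc (suc x)) emp) ht

theorem Ctb.un2 {x y : M} (hx : Ctb x) (hy : Ctb y) : Ctb (un2 x y) := by
  classical
  obtain ⟨f, hf, hf1⟩ := hx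
  obtain ⟨g, hg, hg1⟩ := hy
  have hfo : ∀ a, a ∈ x → ∃ n : ℕ, ap f a = nat n := fun a ha => (mem_om _).1 (ap_mem hf ha)
  have hgo : ∀ a, a ∈ y → ∃ n : ℕ, ap g a = nat n := fun a ha => (mem_om _).1 (ap_mem hg ha)
  refine Ctb.of_inj (fun a => if a ∈ x then dbl (ap f a) else suc (dbl (ap g a))) ?_ ?_
  · intro a ha
    rw [mem_un2] at ha
    split_ifs with h
    · obtain ⟨n, hn⟩ := hfo a h
      rw [hn, dbl_nat]; exact nat_mem_om _
    · obtain ⟨n, hn⟩ := hgo a (ha.resolve_left h)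
      rw [hn, dbl_nat, suc_nat]; exact nat_mem_om _
  · intro a b ha hb hab
    rw [mem_un2] at ha hb
    split_ifs at hab with h1 h2 h2
    · obtain ⟨n, hn⟩ := hfo a h1
      obtain ⟨m, hm⟩ := hfo b h2
      rw [hn, hm, dbl_nat, dbl_nat, nat_inj] at hab
      exact hf1 a b h1 h2 (by rw [hn, hm, nat_inj]; omega)
    · obtain ⟨n, hn⟩ := hfo a h1
      obtain ⟨m, hm⟩ := hgo b (hb.resolve_left h2)
      rw [hn, hm, dbl_nat, dbl_nat, suc_nat, nat_inj] at hab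
      omega
    · obtain ⟨n, hn⟩ := hgo a (ha.resolve_left h1)
      obtain ⟨m, hm⟩ := hfo b h2
      rw [hn, hm, dbl_nat, dbl_nat, suc_nat, nat_inj] at hab
      omega
    · obtain ⟨n, hn⟩ := hgo a (ha.resolve_left h1)
      obtain ⟨m, hm⟩ := hgo b (hb.resolve_left h2)
      rw [hn, hm, dbl_nat, dbl_nat, suc_nat, suc_nat, nat_inj] at hab
      exact hg1 a b (ha.resolve_left h1) (hb.resolve_left h2) (by rw [hn, hm, nat_inj]; omega)

theorem Ctb.om' : Ctb (om : M) :=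
  Ctb.of_inj (fun a => a) (fun _ ha => ha) (fun _ _ _ _ h => h)

/-- the image of a countable set is countable -/
theorem Ctb.img {x : M} (hx : Ctb x) (t : M → M) [h : Dfn (fun v : ℕ → M => v 0 = t (v 1))] :
    Ctb (img t x) := by
  obtain ⟨f, hf, hf1⟩ := hx
  have h1 : Dfn (fun v : ℕ → M => v 1 = t (v 0)) :=
    (h.ren (fun n => if n = 0 then 1 else 0)).congr fun v => by simp
  -- the predicate: some `a` in `x` with `f a = n` and `t a = z`
  have hP : ∀ (u w : (ℕ → M) → M) [DT u] [DT w],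
      Dfn (fun v => ∃ a, a ∈ x ∧ ap f a = u v ∧ w v = t a) := by
    intro u w hu hw
    have h2 : Dfn (fun v : ℕ → M => w (fun n => v (n + 1)) = t (v 0)) :=
      Dfn.rel2 (R := fun y x => y = t x) h (hw.shift 1) (DT.var 0)
    have h3 : DT (fun v : ℕ → M => u (fun n => v (n + 1))) := hu.shift 1
    exact Dfn.ex (S := fun a v => a ∈ x ∧ ap f a = u v ∧ w v = t a)
      (h := Dfn.and (h2 := Dfn.and (h1 := Dfn.eq (hu := h3)) (h2 := h2)))
  have hD : Dfn (fun v : ℕ → M => ∃ z, z ∈ Sym.img t x ∧ ∃ n, n ∈ (om : M) ∧ v 0 = op z n ∧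
      ((∃ a, a ∈ x ∧ ap f a = n ∧ z = t a) ∧
        ∀ k, k ∈ n → ¬ ∃ a, a ∈ x ∧ ap f a = k ∧ z = t a)) := by
    have e1 : Dfn (fun v : ℕ → M => ∃ a, a ∈ x ∧ ap f a = v 0 ∧ v 1 = t a) := hP _ _
    have e2 : Dfn (fun v : ℕ → M => ∀ k, k ∈ v 0 → ¬ ∃ a, a ∈ x ∧ ap f a = k ∧ v 1 = t a) := by
      have e3 : Dfn (fun v : ℕ → M => ∃ a, a ∈ x ∧ ap f a = v 0 ∧ v 2 = t a) := hP _ _
      exact Dfn.all (S := fun k v => k ∈ v 0 → ¬ ∃ a, a ∈ x ∧ ap f a = k ∧ v 1 = t a)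
        (h := Dfn.imp (h2 := Dfn.not (h1 := e3)))
    have e4 : Dfn (fun v : ℕ → M => v 0 ∈ (om : M) ∧ v 2 = op (v 1) (v 0) ∧
        ((∃ a, a ∈ x ∧ ap f a = v 0 ∧ v 1 = t a) ∧
        ∀ k, k ∈ v 0 → ¬ ∃ a, a ∈ x ∧ ap f a = k ∧ v 1 = t a)) :=
      Dfn.and (h2 := Dfn.and (h2 := Dfn.and (h1 := e1) (h2 := e2)))
    have e5 := Dfn.ex (S := fun n v => n ∈ (om : M) ∧ v 1 = op (v 0) n ∧
        ((∃ a, a ∈ x ∧ ap f a = n ∧ v 0 = t a) ∧
        ∀ k, k ∈ n → ¬ ∃ a, a ∈ x ∧ ap f a = k ∧ v 0 = t a)) (h := e4)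
    exact Dfn.ex (S := fun z v => z ∈ Sym.img t x ∧ ∃ n, n ∈ (om : M) ∧ v 0 = op z n ∧
      ((∃ a, a ∈ x ∧ ap f a = n ∧ z = t a) ∧
        ∀ k, k ∈ n → ¬ ∃ a, a ∈ x ∧ ap f a = k ∧ z = t a)) (h := Dfn.and (h2 := e5))
  set g : M := rel (Sym.img t x) om (fun z n => (∃ a, a ∈ x ∧ ap f a = n ∧ z = t a) ∧
        ∀ k, k ∈ n → ¬ ∃ a, a ∈ x ∧ ap f a = k ∧ z = t a) with hg
  have hgf : Fn g (Sym.img t x) om := by
    refine rel_fn fun z hz => ?_
    obtain ⟨a, ha, rfl⟩ := (mem_img t x z).1 hz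
    classical
    have hex : ∃ n : ℕ, ∃ b, b ∈ x ∧ ap f b = (nat n : M) ∧ t a = t b := by
      obtain ⟨n, hn⟩ := (mem_om _).1 (ap_mem hf ha)
      exact ⟨n, a, ha, hn, rfl⟩
    refine ⟨nat (Nat.find hex), nat_mem_om _, ⟨Nat.find_spec hex, ?_⟩, ?_⟩
    · intro k hk
      obtain ⟨m, hm, rfl⟩ := (mem_nat _ k).1 hk
      exact Nat.find_min hex hm
    · rintro c hc ⟨h2, h3⟩
      obtain ⟨m, rfl⟩ := (mem_om c).1 hc
      rw [nat_inj]
      apply le_antisymm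
      · by_contra hlt
        push Not at hlt
        exact h3 (nat (Nat.find hex)) (nat_mem_nat.2 hlt) (Nat.find_spec hex)
      · exact Nat.find_min' hex h2
  refine ⟨g, hgf, fun z z' hz hz' he => ?_⟩
  have e1 := (op_mem_rel _ _ _ z (ap g z)).1 (ap_spec hgf hz)
  have e2 := (op_mem_rel _ _ _ z' (ap g z')).1 (ap_spec hgf hz')
  obtain ⟨_, _, ⟨a, ha, h2, h3⟩, _⟩ := e1
  obtain ⟨_, _, ⟨b, hb, h4, h5⟩, _⟩ := e2
  rw [h3, h5, hf1 a b ha hb (by rw [h2, h4, he])]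

end

end Pool.Agent.Helper73.Sym
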