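import Pool.Agent.Helper73.Sym.Ev

/-!
Cohen reals indexed by a countable set `I` on which a group acts.
-/

namespace Pool.Agent.Helper73.Sym

/-- a finite function from `I × ℕ` to the truth values -/
@[ext] structure Coh (I : Type) where
  f : I → ℕ → Option Bool
  fin : {x : I × ℕ | f x.1 x.2 ≠ none}.Finite

namespace Coh

variable {I : Type}

instance : PartialOrder (Coh I) where
  le p q := ∀ i n b, q.f i n = some b → p.f i n = some b
  le_refl p i n b h := h
  le_trans p q r h1 h2 i n b h := h1 i n b (h2 i n b h)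
  le_antisymm p q h1 h2 := by
    ext i n b
    exact ⟨fun h => h2 i n b h, fun h => h1 i n b h⟩

theorem le_def {p q : Coh I} : p ≤ q ↔ ∀ i n b, q.f i n = some b → p.f i n = some b := Iff.rfl

instance : OrderTop (Coh I) where
  top := ⟨fun _ _ => none, by simp⟩
  le_top p i n b h := absurd h (by simp)

theorem top_f (i : I) (n : ℕ) : (⊤ : Coh I).f i n = none := rfl

instance [Countable I] : Countable (Coh I) := by
  classical
  let F : Coh I → Finset ((I × ℕ) × Option Bool) := fun p =>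
    p.fin.toFinset.image (fun x => (x, p.f x.1 x.2))
  have hF : Function.Injective F := by
    intro p q h
    have key : ∀ (p : Coh I) i n b, ((i, n), some b) ∈ F p ↔ p.f i n = some b := by
      intro p i n b
      simp only [F, Finset.mem_image, Set.Finite.mem_toFinset, Set.mem_ofPred_eq, Prod.mk.injEq]
      constructor
      · rintro ⟨⟨i', n'⟩, _, ⟨rfl, rfl⟩, h⟩
        exact h
      · intro h
        exact ⟨(i, n), by simp [h], rfl, h⟩
    ext i n b
    have h1 := key p i n b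
    have h2 := key q i n b
    rw [h] at h1
    exact h1.symm.trans h2
  exact hF.countable

open Classical in
/-- the condition with one value -/
noncomputable def sgl (i : I) (n : ℕ) (b : Bool) : Coh I :=
  ⟨fun j m => if j = i ∧ m = n then some b else none, by
    refine (Set.finite_singleton (i, n)).subset ?_
    rintro ⟨j, m⟩ h
    simp only [ne_eq, Set.mem_ofPred_eq] at h
    by_cases h1 : j = i ∧ m = n
    · rw [h1.1, h1.2]; rfl
    · rw [if_neg h1] at h; exact absurd rfl h⟩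

theorem le_sgl {p : Coh I} {i : I} {n : ℕ} {b : Bool} : p ≤ sgl i n b ↔ p.f i n = some b := by
  classical
  constructor
  · intro h
    exact h i n b (by simp [sgl])
  · intro h j m c hc
    simp only [sgl] at hc
    split_ifs at hc with h1
    · rw [h1.1, h1.2, h]; exact hc

/-- compatible conditions -/
def Cpt (p q : Coh I) : Prop := ∀ i n b c, p.f i n = some b → q.f i n = some c → b = c

/-- the union of two conditions -/
def uni (p q : Coh I) : Coh I :=
  ⟨fun i n => (p.f i n).or (q.f i n), by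
    refine (p.fin.union q.fin).subset ?_
    rintro ⟨i, n⟩ h
    simp only [ne_eq, Set.mem_ofPred_eq, Option.or_eq_none_iff, not_and_or] at h
    exact h⟩

theorem uni_le_left (p q : Coh I) : uni p q ≤ p := by
  intro i n b h
  simp [uni, h]

theorem uni_le_right {p q : Coh I} (hc : Cpt p q) : uni p q ≤ q := by
  intro i n b h
  rcases h1 : p.f i n with _ | c
  · simp [uni, h1, h]
  · have := hc i n c b h1 h
    subst this
    simp [uni, h1]

/-- the coordinates of a condition -/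
def supp (p : Coh I) : Set I := {i | ∃ n, p.f i n ≠ none}

theorem supp_finite (p : Coh I) : p.supp.Finite := by
  refine (p.fin.image Prod.fst).subset ?_
  rintro i ⟨n, hn⟩
  exact ⟨(i, n), hn, rfl⟩

/-- a level above all values of the condition -/
theorem exists_fresh (p : Coh I) : ∃ n, ∀ i, p.f i n = none := by
  obtain ⟨N, hN⟩ := (p.fin.image Prod.snd).bddAbove
  refine ⟨N + 1, fun i => ?_⟩
  by_contra h
  have := hN ⟨(i, N + 1), h, rfl⟩
  simp at this

/-- conditions deciding two different reals to be different -/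
theorem dense_ne (i j : I) (hij : i ≠ j) (p : Coh I) :
    ∃ q ≤ p, ∃ n, q.f i n = some true ∧ q.f j n = some false := by
  classical
  obtain ⟨n, hn⟩ := p.exists_fresh
  refine ⟨uni p (uni (sgl i n true) (sgl j n false)), uni_le_left _ _, n, ?_, ?_⟩
  · simp [uni, sgl, hn]
  · simp [uni, sgl, hn, Ne.symm hij]

variable {G : Type} [Group G] [MulAction G I]

instance : MulAction G (Coh I) where
  smul g p := ⟨fun i n => p.f (g⁻¹ • i) n, by
    refine ((p.fin.image (fun x : I × ℕ => (g • x.1, x.2)))).subset ?_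
    rintro ⟨i, n⟩ h
    exact ⟨(g⁻¹ • i, n), h, by simp⟩⟩
  one_smul p := by
    ext i n
    show (p.f ((1 : G)⁻¹ • i) n) = _ ↔ _
    simp
  mul_smul g h p := by
    ext i n
    show (p.f ((g * h)⁻¹ • i) n) = _ ↔ (p.f (h⁻¹ • (g⁻¹ • i)) n) = _
    rw [mul_inv_rev, mul_smul]

theorem smul_f (g : G) (p : Coh I) (i : I) (n : ℕ) : (g • p).f i n = p.f (g⁻¹ • i) n := rfl

theorem smul_le (g : G) {p q : Coh I} (h : p ≤ q) : g • p ≤ g • q :=
  fun i n b hb => h (g⁻¹ • i) n b hb

theorem smul_sgl (g : G) (i : I) (n : ℕ) (b : Bool) :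
    g • (sgl i n b : Coh I) = sgl (g • i) n b := by
  classical
  ext j m c
  rw [smul_f]
  simp only [sgl, inv_smul_eq_iff]

end Coh

/-- an ideal of supports -/
class Spp (G I : Type) [Group G] [MulAction G I] where
  S : Set (Set I)
  empty : ∅ ∈ S
  union : ∀ {A B : Set I}, A ∈ S → B ∈ S → A ∪ B ∈ S
  smul : ∀ (g : G) {A : Set I}, A ∈ S → ∃ B ∈ S, ∀ a ∈ A, g • a ∈ B
  sing : ∀ i : I, ∃ A ∈ S, i ∈ A

section

variable {I G : Type} [Group G] [MulAction G I] [Spp G I]

instance : SymSys (Coh I) G where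
  smul_mono g p q h := Coh.smul_le g h
  filt := {H | ∃ A ∈ Spp.S (G := G) (I := I), ∀ g : G, (∀ a ∈ A, g • a = a) → g ∈ H}
  top_mem := ⟨∅, Spp.empty, fun _ _ => Subgroup.mem_top _⟩
  up := fun ⟨A, hA, h⟩ hle => ⟨A, hA, fun g hg => hle (h g hg)⟩
  inter := fun ⟨A, hA, h⟩ ⟨B, hB, h'⟩ => ⟨A ∪ B, Spp.union hA hB, fun g hg =>
    ⟨h g fun a ha => hg a (Or.inl ha), h' g fun a ha => hg a (Or.inr ha)⟩⟩
  conj := by
    rintro g H ⟨A, hA, h⟩
    obtain ⟨B, hB, h1⟩ := Spp.smul g hA
    refine ⟨fixingSubgroup G B, ⟨B, hB, fun k hk => (mem_fixingSubgroup_iff G).2 hk⟩, ?_⟩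
    intro k hk
    apply h
    intro a ha
    rw [mem_fixingSubgroup_iff] at hk
    rw [mul_smul, mul_smul, hk _ (h1 a ha), inv_smul_smul]

/-- the name `x` has support `A` -/
def Supd (G : Type) [Group G] [MulAction G I] [Spp G I] (A : Set I) (x : Nm (Coh I)) : Prop :=
  ∀ g : G, (∀ a ∈ A, g • a = a) → ∀ p, Eqv (g • x) x p

theorem symm_iff {x : Nm (Coh I)} : Symm G x ↔ ∃ A ∈ Spp.S (G := G) (I := I), Supd G A x := by
  constructor
  · rintro ⟨H, ⟨A, hA, h⟩, h1⟩
    exact ⟨A, hA, fun g hg => h1 g (h g hg)⟩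
  · rintro ⟨A, hA, h⟩
    refine ⟨fixingSubgroup G A, ⟨A, hA, fun k hk => (mem_fixingSubgroup_iff G).2 hk⟩, ?_⟩
    intro g hg
    exact h g ((mem_fixingSubgroup_iff G).1 hg)

/-- the name of the `i`-th Cohen real -/
noncomputable def rN (i : I) : Nm (Coh I) := .mk ℕ natN (fun n => Coh.sgl i n true)

theorem smul_rN (g : G) (i : I) : g • rN i = rN (g • i) := by
  show Nm.mk _ _ _ = Nm.mk _ _ _
  congr 1
  · funext n
    exact natN_smul g n
  · funext n
    exact Coh.smul_sgl g i n true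

theorem Supd.mono {A B : Set I} {x : Nm (Coh I)} (h : Supd G A x) (hAB : A ⊆ B) :
    Supd G B x := fun g hg p => h g (fun a ha => hg a (hAB ha)) p

theorem symm_rN (i : I) : Symm G (rN i) := by
  obtain ⟨A, hA, hi⟩ := Spp.sing (G := G) i
  refine symm_iff.2 ⟨A, hA, fun g hg p => ?_⟩
  rw [smul_rN, hg i hi]
  exact Eqv.refl _ _

theorem hs_rN (i : I) : HS G (rN i) := HS.intro (symm_rN i) fun n => natN_hs n

theorem supd_uN {A : Set I} {ι : Type} {τ : ι → Nm (Coh I)}
    (h : ∀ g : G, (∀ a ∈ A, g • a = a) → ∀ i p, ∃ k, Eqv (g • τ i) (τ k) p) :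
    Supd G A (uN τ) := by
  intro g hg p
  rw [smul_uN]
  refine eqv_uN ?_ ?_
  · intro i
    exact h g hg i p
  · intro k
    obtain ⟨i, hi⟩ := h g⁻¹ (fun a ha => by rw [inv_smul_eq_iff, hg a ha]) k (g⁻¹ • p)
    refine ⟨i, ?_⟩
    have := (eqv_smul g).2 hi
    rw [smul_inv_smul, smul_inv_smul] at this
    exact this.symm

theorem hs_uN {A : Set I} (hA : A ∈ Spp.S (G := G) (I := I)) {ι : Type} {τ : ι → Nm (Coh I)}
    (hτ : ∀ i, HS G (τ i))
    (h : ∀ g : G, (∀ a ∈ A, g • a = a) → ∀ i p, ∃ k, Eqv (g • τ i) (τ k) p) :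
    HS G (uN τ) := HS.intro (symm_iff.2 ⟨A, hA, supd_uN h⟩) hτ

end

namespace Gen

variable {I G : Type} [Group G] [MulAction G I] [Spp G I] {D : Gen (Coh I) G}

theorem mem_ev_rN {i : I} (h : D.Has (rN i)) (z : D.M) :
    z ∈ D.ev (rN i) ↔ ∃ n : ℕ, (∃ k, (D.g k).f i n = some true) ∧ z = Sym.nat n := by
  rw [rN, mem_ev_mk h (fun i _ => has_nat i)]
  simp only [ev_natN, Coh.le_sgl]

variable (D) in
/-- different reals differ -/
def Sep : Prop := ∀ i j, i ≠ j → ∃ k n, (D.g k).f i n = some true ∧ (D.g k).f j n = some false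

theorem g_mono {k l : ℕ} (h : k ≤ l) {i : I} {n : ℕ} {b : Bool} (hb : (D.g k).f i n = some b) :
    (D.g l).f i n = some b := D.anti h i n b hb

theorem ev_rN_inj (hD : D.Sep) {i j : I} (hi : D.Has (rN i)) (hj : D.Has (rN j)) :
    D.ev (rN i) = D.ev (rN j) ↔ i = j := by
  constructor
  · intro h
    by_contra hij
    obtain ⟨k, n, h1, h2⟩ := hD i j hij
    have h3 : Sym.nat n ∈ D.ev (rN i) := (mem_ev_rN hi _).2 ⟨n, ⟨k, h1⟩, rfl⟩
    rw [h, mem_ev_rN hj] at h3
    obtain ⟨m, ⟨l, hl⟩, hm⟩ := h3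
    rw [nat_inj] at hm
    subst hm
    have h4 := g_mono (le_max_left k l) h2
    have h5 := g_mono (le_max_right k l) hl
    rw [h4] at h5
    simp at h5
  · rintro rfl; rfl

end Gen

/-- existence of generic models with different reals, closed under pairing -/
theorem exists_gen_sep {I G : Type} [Group G] [MulAction G I] [Spp G I] [Countable I]
    (p0 : Coh I) {K : Type} [Countable K] (A : K → Nm (Coh I)) (hA : ∀ k, HS G (A k)) :
    ∃ D : Gen (Coh I) G, D.g 0 = p0 ∧ D.Upc ∧ (∀ k, D.Has (A k)) ∧ D.Sep := by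
  obtain ⟨D, h1, h2, h3, h4⟩ := exists_gen_up (G := G) p0 A hA (E := {x : I × I // x.1 ≠ x.2})
    (fun x _ => {p | ∃ n, p.f x.1.1 n = some true ∧ p.f x.1.2 n = some false})
    (fun x _ _ p => Coh.dense_ne x.1.1 x.1.2 x.2 p)
  refine ⟨D, h1, h2, h3, fun i j hij => ?_⟩
  obtain ⟨k, n, hn⟩ := h4 ⟨(i, j), hij⟩ _ (Gen.has_U 0)
  exact ⟨k, n, hn⟩

end Pool.Agent.Helper73.Sym
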