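import Pool.Agent.Helper73.Sym.Generic

/-!
The axioms of ZF hold in the generic models.
-/

namespace Pool.Agent.Helper73.Sym

section

variable {P G : Type} [PartialOrder P] [OrderTop P] [Group G] [MulAction G P] [SymSys P G]

/-- a subgroup in the filter fixing finitely many symmetric names -/
theorem exists_common (v : ℕ → Nm P) (hv : ∀ n, HS G (v n)) (N : ℕ) :
    ∃ H ∈ SymSys.filt (P := P) (G := G), ∀ g ∈ H, ∀ n < N, ∀ p, Eqv (g • v n) (v n) p := by
  induction N with
  | zero => exact ⟨⊤, SymSys.top_mem, fun g _ n hn => absurd hn (by omega)⟩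
  | succ N ih =>
    obtain ⟨H, hH, h1⟩ := ih
    obtain ⟨K, hK, h2⟩ := (hv N).symm'
    refine ⟨H ⊓ K, SymSys.inter hH hK, fun g hg n hn p => ?_⟩
    rcases Nat.lt_succ_iff_lt_or_eq.1 hn with hn | rfl
    · exact h1 g hg.1 n hn p
    · exact h2 g hg.2 p

/-- separation for names -/
theorem exists_comp (φ : Fml) (v : ℕ → Nm P) (hv : ∀ n, HS G (v n)) (b : Nm P)
    (hb : HS G b) : ∃ y, HS G y ∧ ∀ z p, Mm z y p ↔ Mm z b p ∧ Frc G φ (cons z v) p := by
  classical
  set y : Nm P := .mk {t : b.Ix × P // t.2 ≤ b.wt t.1 ∧ Frc G φ (cons (b.ch t.1) v) t.2}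
    (fun t => b.ch t.1.1) (fun t => t.1.2) with hy
  have hchar : ∀ z p, Mm z y p ↔ Mm z b p ∧ Frc G φ (cons z v) p := by
    intro z p
    constructor
    · intro h
      constructor
      · intro q hq
        obtain ⟨r, hr, ⟨t, ht⟩, htr, he⟩ := h q hq
        exact ⟨r, hr, t.1, le_trans htr ht.1, he⟩
      · apply Frc.dense
        intro q hq
        obtain ⟨r, hr, ⟨t, ht⟩, htr, he⟩ := h q hq
        refine ⟨r, hr, Frc.congr (v := cons (b.ch t.1) v) (fun n => ?_) (ht.2.mono htr)⟩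
        cases n with
        | zero => exact he.symm
        | succ n => exact Eqv.refl _ _
    · rintro ⟨h1, h2⟩ q hq
      obtain ⟨r, hr, k, hk, he⟩ := h1 q hq
      refine ⟨r, hr, ⟨(k, r), hk, Frc.congr (v := cons z v) (fun n => ?_)
        (h2.mono (hr.trans hq))⟩, le_rfl, he⟩
      cases n with
      | zero => exact he
      | succ n => exact Eqv.refl _ _
  obtain ⟨H, hH, h1⟩ := exists_common v hv φ.bd
  obtain ⟨K, hK, h2⟩ := hb.symm'
  have key : ∀ g ∈ H ⊓ K, ∀ t : {t : b.Ix × P // t.2 ≤ b.wt t.1 ∧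
      Frc G φ (cons (b.ch t.1) v) t.2}, ∀ q ≤ g • t.1.2, Mm (g • b.ch t.1.1) y q := by
    rintro g ⟨hg1, hg2⟩ ⟨t, ht⟩ q hq
    rw [hchar]
    constructor
    · have h3 : Mm (g • b.ch t.1) (g • b) (g • t.2) := (mm_smul g).2 (Mm.child b t.1 ht.1)
      exact Mm.congr_right (h2 g hg2 q) (h3.mono hq)
    · have h3 : Frc G φ (fun n => g • cons (b.ch t.1) v n) q := ((frc_smul g).2 ht.2).mono hq
      rw [comp_cons (fun x => g • x)] at h3
      have h4 : Frc G φ (cons (g • b.ch t.1) (fun n => if n < φ.bd then g • v n else v n)) q := by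
        refine (frc_depends ?_).1 h3
        intro n hn
        cases n with
        | zero => rfl
        | succ n => simp only [cons_succ]; rw [if_pos (by omega)]
      refine h4.congr (fun n => ?_)
      cases n with
      | zero => exact Eqv.refl _ _
      | succ n =>
        simp only [cons_succ]
        split_ifs with hn
        · exact h1 g hg1 n hn q
        · exact Eqv.refl _ _
  refine ⟨y, HS.intro ⟨H ⊓ K, SymSys.inter hH hK, fun g hg p => ?_⟩ (fun t => hb.ch _), hchar⟩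
  rw [eqv_iff_children]
  constructor
  · intro t q _ hqt
    exact key g hg t q hqt
  · intro t q _ hqt
    have h3 := key g⁻¹ ((H ⊓ K).inv_mem hg) t (g⁻¹ • q) (SymSys.smul_mono g⁻¹ hqt)
    have h4 := (mm_smul g).2 h3
    rw [smul_inv_smul, smul_inv_smul] at h4
    exact h4

variable (G) in
/-- the name of the set of all translates of the names `τ i` -/
def orb {ι : Type} (τ : ι → Nm P) : Nm P := .mk (G × ι) (fun t => t.1 • τ t.2) (fun _ => ⊤)

theorem orb_hs {ι : Type} {τ : ι → Nm P} (h : ∀ i, HS G (τ i)) : HS G (orb G τ) := by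
  refine ⟨⟨⊤, SymSys.top_mem, fun g _ p => ?_⟩, fun t => (h t.2).smul t.1⟩
  rw [eqv_iff_children]
  constructor
  · rintro ⟨k, i⟩ q _ _
    have := Mm.child (orb G τ) (g * k, i) (p := q) le_top
    have e : ((g * k) • τ i : Nm P) = g • k • τ i := mul_smul _ _ _
    show Mm (g • k • τ i) (orb G τ) q
    rw [← e]; exact this
  · rintro ⟨k, i⟩ q _ _
    have h1 := Mm.child (orb G τ) (g⁻¹ * k, i) (p := g⁻¹ • q) le_top
    have h2 := (mm_smul g).2 h1
    have e : g • ((orb G τ).ch (g⁻¹ * k, i)) = k • τ i := by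
      show g • ((g⁻¹ * k) • τ i) = k • τ i
      rw [smul_smul, mul_inv_cancel_left]
    rw [e, smul_inv_smul] at h2
    exact h2

omit [SymSys P G] in
theorem mem_orb {ι : Type} {τ : ι → Nm P} (i : ι) (p : P) : Mm (τ i) (orb G τ) p := by
  have := Mm.child (orb G τ) (1, i) (p := p) le_top
  have e : (orb G τ).ch (1, i) = τ i := one_smul _ _
  rwa [e] at this

/-- comprehension for bounded classes -/
theorem exists_set {ι : Type} (τ : ι → Nm P) (hτ : ∀ i, HS G (τ i)) (φ : Fml)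
    (v : ℕ → Nm P) (hv : ∀ n, HS G (v n)) (p0 : P)
    (hb : ∀ z, HS G z → ∀ q ≤ p0, Frc G φ (cons z v) q → ∃ r ≤ q, ∃ i, Eqv z (τ i) r) :
    ∃ y, HS G y ∧ ∀ z, HS G z → ∀ p ≤ p0, (Mm z y p ↔ Frc G φ (cons z v) p) := by
  obtain ⟨y, hy, h⟩ := exists_comp φ v hv (orb G τ) (orb_hs hτ)
  refine ⟨y, hy, fun z hz p hp => ?_⟩
  rw [h]
  refine ⟨fun h => h.2, fun h => ⟨?_, h⟩⟩
  apply Mm.dense
  intro q hq
  obtain ⟨r, hr, i, he⟩ := hb z hz q (hq.trans hp) (h.mono hq)
  exact ⟨r, hr, Mm.congr_left he.symm (mem_orb i r)⟩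

/-- a bounded class is a set: the formula version -/
theorem frc_exists_set {ι : P → Type} (τ : ∀ p, ι p → Nm P) (hτ : ∀ p i, HS G (τ p i))
    (φ : Fml) (v : ℕ → Nm P) (hv : ∀ n, HS G (v n)) (p0 : P)
    (hb : ∀ z, HS G z → ∀ q ≤ p0, Frc G φ (cons z v) q → ∃ r ≤ q, ∃ i, Eqv z (τ p0 i) r) :
    Frc G (.ex (.all (.iff (.mem 0 1) (φ.ren (fun n => if n = 0 then 0 else n + 1))))) v p0 := by
  obtain ⟨y, hy, h⟩ := exists_set (τ p0) (hτ p0) φ v hv p0 hb
  refine frc_ex_intro hy (frc_all.2 fun z hz => frc_iff.2 fun q hq => ?_)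
  rw [frc_ren]
  have e : (fun n => cons z (cons y v) (if n = 0 then 0 else n + 1)) = cons z v := by
    funext n
    cases n <;> simp
  rw [e]
  exact h z hz q hq

end

namespace Gen

variable {P G : Type} [PartialOrder P] [OrderTop P] [Group G] [MulAction G P] [SymSys P G]
  (D : Gen P G)

/-- a bounded class is a set, in the generic model -/
theorem exists_set (φ : Fml) (w : ℕ → D.M)
    (h : ∀ v : ℕ → Nm P, (∀ n, HS G (v n)) → ∀ p0 : P, ∃ (ι : Type) (τ : ι → Nm P),
      (∀ i, HS G (τ i)) ∧ ∀ z, HS G z → ∀ q ≤ p0, Frc G φ (cons z v) q →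
      ∃ r ≤ q, ∃ i, Eqv z (τ i) r) :
    ∃ y : D.M, ∀ z : D.M, z ∈ y ↔ Sat φ (cons z w) := by
  have h1 : Sat (.ex (.all (.iff (.mem 0 1)
      (φ.ren (fun n => if n = 0 then 0 else n + 1))))) w := by
    apply D.sat_of_frc
    intro v hv p0
    obtain ⟨ι, τ, hτ, hb⟩ := h v hv p0
    exact frc_exists_set (ι := fun _ => ι) (fun _ => τ) (fun _ => hτ) φ v hv p0 hb
  rw [sat_ex] at h1
  obtain ⟨y, hy⟩ := h1
  refine ⟨y, fun z => ?_⟩
  have h2 := hy z
  rw [sat_iff, sat_ren] at h2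
  have e : (fun n => cons z (cons y w) (if n = 0 then 0 else n + 1)) = cons z w := by
    funext n
    cases n <;> simp
  rw [e] at h2
  exact h2

theorem ax_ext (x y : D.M) (h : ∀ z : D.M, z ∈ x ↔ z ∈ y) : x = y := by
  have h1 : Sat (.imp (.all (.iff (.mem 0 1) (.mem 0 2))) (.eq 0 1))
      (cons x (cons y (fun _ => x))) := by
    apply D.sat_of_frc
    intro v hv p q hq hall
    show Eqv (v 0) (v 1) q
    rw [eqv_iff_children]
    constructor
    · intro i r hr hri
      have := frc_iff.1 (hall _ ((hv 0).ch i)) r hr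
      exact this.1 (Mm.child (v 0) i hri)
    · intro i r hr hri
      have := frc_iff.1 (hall _ ((hv 1).ch i)) r hr
      exact this.2 (Mm.child (v 1) i hri)
  simp only [sat_imp, sat_all, sat_iff, sat_mem, sat_eq, cons_zero, cons_one, cons_two] at h1
  exact h1 h

theorem ax_pair (x y : D.M) : ∃ z : D.M, ∀ w : D.M, w ∈ z ↔ w = x ∨ w = y := by
  have := D.exists_set (.or (.eq 0 1) (.eq 0 2)) (cons x (cons y (fun _ => x))) (by
    intro v hv p0
    refine ⟨Bool, fun b => if b then v 0 else v 1, fun b => by cases b <;> simp [hv], ?_⟩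
    intro z hz q _ h
    rw [frc_or] at h
    obtain ⟨r, hr, h | h⟩ := h q le_rfl
    · exact ⟨r, hr, true, h⟩
    · exact ⟨r, hr, false, h⟩)
  simpa using this

theorem ax_union (x : D.M) : ∃ y : D.M, ∀ z : D.M, z ∈ y ↔ ∃ w : D.M, w ∈ x ∧ z ∈ w := by
  have := D.exists_set (.ex (.and (.mem 0 2) (.mem 1 0))) (fun _ => x) (by
    intro v hv p0
    refine ⟨Σ i : (v 0).Ix, ((v 0).ch i).Ix, fun t => ((v 0).ch t.1).ch t.2,
      fun t => ((hv 0).ch t.1).ch t.2, ?_⟩
    intro z hz q _ h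
    rw [frc_ex] at h
    obtain ⟨r, hr, w, hw, h⟩ := h q le_rfl
    rw [frc_and] at h
    obtain ⟨h1, h2⟩ := h
    obtain ⟨s, hs, i, hi, h3⟩ := h1 r le_rfl
    have h4 : Mm z ((v 0).ch i) s := Mm.congr_right h3 (Mm.mono h2 hs)
    obtain ⟨t, ht, j, hj, h5⟩ := h4 s le_rfl
    exact ⟨t, ht.trans (hs.trans hr), ⟨i, j⟩, h5⟩)
  simpa using this

theorem ax_power (x : D.M) : ∃ y : D.M, ∀ z : D.M, z ∈ y ↔ ∀ w : D.M, w ∈ z → w ∈ x := by
  have := D.exists_set (.all (.imp (.mem 0 1) (.mem 0 2))) (fun _ => x) (by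
    intro v hv p0
    -- names of subsets of `v 0`
    let nm : Set ((v 0).Ix × P) → Nm P := fun S =>
      .mk S (fun t => (v 0).ch t.1.1) (fun t => t.1.2)
    refine ⟨{S : Set ((v 0).Ix × P) // HS G (nm S)}, fun S => nm S.1, fun S => S.2, ?_⟩
    intro z hz q _ h
    obtain ⟨H, hH, h1⟩ := (hv 0).symm'
    obtain ⟨K, hK, h2⟩ := hz.symm'
    let S : Set ((v 0).Ix × P) := {t | t.2 ≤ (v 0).wt t.1 ∧ Mm ((v 0).ch t.1) z t.2}
    have hchar : ∀ u p, Mm u (nm S) p ↔ Mm u (v 0) p ∧ Mm u z p := by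
      intro u p
      constructor
      · intro h
        constructor
        · intro q hq
          obtain ⟨r, hr, ⟨t, ht⟩, htr, he⟩ := h q hq
          exact ⟨r, hr, t.1, le_trans htr ht.1, he⟩
        · apply Mm.dense
          intro q hq
          obtain ⟨r, hr, ⟨t, ht⟩, htr, he⟩ := h q hq
          exact ⟨r, hr, Mm.congr_left (Eqv.symm he) (ht.2.mono htr)⟩
      · rintro ⟨h1, h2⟩ q hq
        obtain ⟨r, hr, k, hk, he⟩ := h1 q hq
        exact ⟨r, hr, ⟨(k, r), hk, Mm.congr_left he (h2.mono (hr.trans hq))⟩, le_rfl, he⟩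
    have key : ∀ g ∈ H ⊓ K, ∀ t : S, ∀ q ≤ g • t.1.2, Mm (g • (v 0).ch t.1.1) (nm S) q := by
      rintro g ⟨hg1, hg2⟩ ⟨t, ht⟩ q hq
      rw [hchar]
      constructor
      · have h3 : Mm (g • (v 0).ch t.1) (g • v 0) (g • t.2) :=
          (mm_smul g).2 (Mm.child (v 0) t.1 ht.1)
        exact Mm.congr_right (h1 g hg1 q) (h3.mono hq)
      · exact Mm.congr_right (h2 g hg2 q) (((mm_smul g).2 ht.2).mono hq)
    have hS : HS G (nm S) := by
      refine HS.intro ⟨H ⊓ K, SymSys.inter hH hK, fun g hg p => ?_⟩ (fun t => (hv 0).ch _)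
      rw [eqv_iff_children]
      constructor
      · intro t q _ hqt
        exact key g hg t q hqt
      · intro t q _ hqt
        have h3 := key g⁻¹ ((H ⊓ K).inv_mem hg) t (g⁻¹ • q) (SymSys.smul_mono g⁻¹ hqt)
        have h4 := (mm_smul g).2 h3
        rw [smul_inv_smul, smul_inv_smul] at h4
        exact h4
    refine ⟨q, le_rfl, ⟨S, hS⟩, ?_⟩
    rw [eqv_iff_children]
    constructor
    · intro i r hr hri
      have h3 : Mm (z.ch i) z r := Mm.child z i hri
      exact (hchar _ _).2 ⟨h _ (hz.ch i) r hr h3, h3⟩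
    · intro t r _ hrt
      exact t.2.2.mono hrt)
  simpa using this

theorem ax_foundation (x : D.M) (hx : ∃ z : D.M, z ∈ x) :
    ∃ z : D.M, z ∈ x ∧ ∀ w : D.M, w ∈ z → ¬ w ∈ x := by
  have h1 : Sat (.imp (.ex (.mem 0 1)) (.ex (.and (.mem 0 1)
      (.all (.imp (.mem 0 1) (.not (.mem 0 2))))))) (fun _ => x) := by
    apply D.sat_of_frc
    intro v hv p q hq h
    by_contra hc
    obtain ⟨r, hr, h2⟩ := exists_frc_not hc
    have key : ∀ z : Nm P, HS G z → ∀ s ≤ r, ¬ Mm z (v 0) s := by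
      intro z
      induction z with
      | mk ι τ c ih =>
        intro hz s hs hm
        have h3 : ¬ Frc G (.all (.imp (.mem 0 1) (.not (.mem 0 2)))) (cons (.mk ι τ c) v) s := by
          intro h3
          exact h2 s hs (frc_ex_intro hz (frc_and.2 ⟨hm, h3⟩))
        rw [frc_all] at h3
        push Not at h3
        obtain ⟨w, hw, h3⟩ := h3
        rw [frc_imp] at h3
        push Not at h3
        obtain ⟨t, ht, h4, h5⟩ := h3
        rw [frc_not] at h5
        push Not at h5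
        obtain ⟨t', ht', h6⟩ := h5
        obtain ⟨u, hu, i, hi, h7⟩ := h4 t' ht'
        exact ih i (hz.2 i) u (hu.trans (ht'.trans (ht.trans hs)))
          (Mm.congr_left h7 (Mm.mono h6 hu))
    obtain ⟨s, hs, z, hz, h3⟩ := frc_ex.1 h r hr
    exact key z hz s hs h3
  simp only [sat_imp, sat_ex, sat_and, sat_all, sat_mem, sat_not, cons_zero, cons_one,
    cons_two] at h1
  exact h1 hx

theorem ax_separation (φ : Fml) (w : ℕ → D.M) (x : D.M) :
    ∃ y : D.M, ∀ z : D.M, z ∈ y ↔ z ∈ x ∧ Sat φ (cons z w) := by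
  have := D.exists_set (.and (.mem 0 1) (φ.ren (fun n => if n = 0 then 0 else n + 1)))
    (cons x w) (by
    intro v hv p0
    refine ⟨(v 0).Ix, (v 0).ch, fun i => (hv 0).ch i, ?_⟩
    intro z hz q _ h
    rw [frc_and] at h
    obtain ⟨r, hr, i, hi, h3⟩ := h.1 q le_rfl
    exact ⟨r, hr, i, h3⟩)
  obtain ⟨y, hy⟩ := this
  refine ⟨y, fun z => ?_⟩
  rw [hy, sat_and, sat_ren]
  have e : (fun n => cons z (cons x w) (if n = 0 then 0 else n + 1)) = cons z w := by
    funext n
    cases n <;> simp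
  rw [e]
  rfl

theorem ax_replacement (φ : Fml) (w : ℕ → D.M) (x : D.M)
    (hx : ∀ z : D.M, z ∈ x → ∃! u : D.M, Sat φ (cons u (cons z w))) :
    ∃ y : D.M, ∀ u : D.M, u ∈ y ↔ ∃ z : D.M, z ∈ x ∧ Sat φ (cons u (cons z w)) := by
  classical
  -- collection
  have h1 := D.exists_set (.ex (.and (.mem 0 2) (.and
    (φ.ren (fun n => if n = 0 then 1 else if n = 1 then 0 else n + 1))
    (.all (.imp (φ.ren (fun n => if n = 0 then 0 else if n = 1 then 1 else n + 2))
      (.eq 0 2)))))) (cons x w) (by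
    intro v hv p0
    have hW : ∀ t : (v 0).Ix × P, ∃ u : Nm P, HS G u ∧
        ((∃ u, HS G u ∧ Frc G φ (cons u (cons ((v 0).ch t.1) (fun n => v (n + 1)))) t.2) →
          Frc G φ (cons u (cons ((v 0).ch t.1) (fun n => v (n + 1)))) t.2) := by
      intro t
      by_cases h : ∃ u, HS G u ∧ Frc G φ (cons u (cons ((v 0).ch t.1) (fun n => v (n + 1)))) t.2
      · obtain ⟨u, hu, h⟩ := h
        exact ⟨u, hu, fun _ => h⟩
      · exact ⟨v 0, hv 0, fun h' => absurd h' h⟩
    choose W hW1 hW2 using hW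
    refine ⟨(v 0).Ix × P, W, hW1, ?_⟩
    intro u hu q _ h
    rw [frc_ex] at h
    obtain ⟨r, hr, z, hz, h⟩ := h q le_rfl
    rw [frc_and, frc_and] at h
    obtain ⟨h2, h3, h4⟩ := h
    obtain ⟨s, hs, i, hi, h5⟩ := h2 r le_rfl
    rw [frc_ren] at h3
    have e3 : (fun n => cons z (cons u v) (if n = 0 then 1 else if n = 1 then 0 else n + 1))
        = cons u (cons z (fun n => v (n + 1))) := by
      funext n
      rcases n with _ | _ | n
      · rfl
      · rfl
      · simp
    rw [e3] at h3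
    have h6 : Frc G φ (cons u (cons ((v 0).ch i) (fun n => v (n + 1)))) s := by
      refine Frc.congr (fun n => ?_) (h3.mono hs)
      rcases n with _ | _ | n
      · exact Eqv.refl _ _
      · exact h5
      · exact Eqv.refl _ _
    have h7 := hW2 (i, s) ⟨u, hu, h6⟩
    have h8 := h4 (W (i, s)) (hW1 _) s hs
    rw [frc_ren] at h8
    have e8 : (fun n => cons (W (i, s)) (cons z (cons u v))
        (if n = 0 then 0 else if n = 1 then 1 else n + 2))
        = cons (W (i, s)) (cons z (fun n => v (n + 1))) := by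
      funext n
      rcases n with _ | _ | n
      · rfl
      · rfl
      · simp
    rw [e8] at h8
    have h9 : Eqv (W (i, s)) u s := h8 (by
      refine Frc.congr (fun n => ?_) h7
      rcases n with _ | _ | n
      · exact Eqv.refl _ _
      · exact h5.symm
      · exact Eqv.refl _ _)
    exact ⟨s, hs.trans hr, (i, s), h9.symm⟩)
  obtain ⟨y, hy⟩ := h1
  refine ⟨y, fun u => ?_⟩
  rw [hy, sat_ex]
  refine exists_congr fun z => ?_
  rw [sat_and, sat_and, sat_ren]
  have e3 : (fun n => cons z (cons u (cons x w))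
      (if n = 0 then 1 else if n = 1 then 0 else n + 1)) = cons u (cons z w) := by
    funext n
    rcases n with _ | _ | n
    · rfl
    · rfl
    · simp
  rw [e3]
  have h4 : Sat (.all (.imp (φ.ren (fun n => if n = 0 then 0 else if n = 1 then 1 else n + 2))
      (.eq 0 2))) (cons z (cons u (cons x w))) ↔
      ∀ u', Sat φ (cons u' (cons z w)) → u' = u := by
    rw [sat_all]
    refine forall_congr' fun u' => ?_
    rw [sat_imp, sat_ren]
    have e8 : (fun n => cons u' (cons z (cons u (cons x w)))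
        (if n = 0 then 0 else if n = 1 then 1 else n + 2)) = cons u' (cons z w) := by
      funext n
      rcases n with _ | _ | n
      · rfl
      · rfl
      · simp
    rw [e8]
    rfl
  rw [h4]
  constructor
  · rintro ⟨h5, h6, _⟩
    exact ⟨h5, h6⟩
  · rintro ⟨h5, h6⟩
    have h5' : z ∈ x := h5
    refine ⟨h5, h6, fun u' hu' => ?_⟩
    obtain ⟨u0, _, hu0⟩ := hx z h5'
    rw [hu0 u' hu', hu0 u h6]

theorem ax_infinity : ∃ x : D.M, (∃ e : D.M, e ∈ x ∧ ∀ z : D.M, ¬ z ∈ e) ∧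
    ∀ y : D.M, y ∈ x → ∃ s : D.M, s ∈ x ∧ ∀ z : D.M, z ∈ s ↔ z ∈ y ∨ z = y := by
  have h1 : Sat (.ex (.and (.ex (.and (.mem 0 1) (.all (.not (.mem 0 1)))))
      (.all (.imp (.mem 0 1) (.ex (.and (.mem 0 2) (.all (.iff (.mem 0 1)
        (.or (.mem 0 2) (.eq 0 2))))))))) ) (fun _ => D.el 0) := by
    apply D.sat_of_frc
    intro v hv p
    refine frc_ex_intro omN_hs (frc_and.2 ⟨?_, ?_⟩)
    · refine frc_ex_intro (natN_hs 0) (frc_and.2 ⟨?_, ?_⟩)
      · exact Mm.child omN (0 : ℕ) le_top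
      · intro z _
        rw [frc_not]
        intro q _ h
        obtain ⟨r, _, e, _⟩ := h q le_rfl
        exact e.elim
    · intro y hy q _ h
      apply Frc.dense
      intro r hr
      obtain ⟨s, hs, n, hn, he⟩ := h r hr
      change ℕ at n
      change Eqv y (natN n) s at he
      refine ⟨s, hs, frc_ex_intro (natN_hs (n + 1)) (frc_and.2 ⟨Mm.child omN (n + 1) le_top, ?_⟩)⟩
      refine frc_all.2 fun z hz => frc_iff.2 fun t ht => ?_
      rw [frc_or]
      show Mm z (succN (natN n)) t ↔ ∀ q ≤ t, ∃ r ≤ q, Mm z y r ∨ Eqv z y r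
      rw [mm_succN]
      have he' : Eqv y (natN n) t := Eqv.mono he ht
      constructor
      · intro h a ha
        obtain ⟨b, hb, h1 | h1⟩ := h a ha
        · exact ⟨b, hb, Or.inl (Mm.congr_right (he'.mono (hb.trans ha)).symm h1)⟩
        · exact ⟨b, hb, Or.inr (h1.trans (he'.mono (hb.trans ha)).symm)⟩
      · intro h a ha
        obtain ⟨b, hb, h1 | h1⟩ := h a ha
        · exact ⟨b, hb, Or.inl (Mm.congr_right (he'.mono (hb.trans ha)) h1)⟩
        · exact ⟨b, hb, Or.inr (h1.trans (he'.mono (hb.trans ha)))⟩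
  simpa using h1

instance : IsZF D.M where
  ext := D.ax_ext
  pair := D.ax_pair
  union := D.ax_union
  power := D.ax_power
  infinity := D.ax_infinity
  foundation := D.ax_foundation
  separation := D.ax_separation
  replacement := D.ax_replacement

theorem el_mem_of_mm {i j : ℕ} {n : ℕ} (h : Mm (D.U i) (D.U j) (D.g n)) :
    D.el i ∈ D.el j := ⟨n, h⟩

/-- elements of the value of a name are values of its children -/
theorem exists_child {k m : ℕ} {x : Nm P} (hx : D.U m = x) (h : D.el k ∈ D.el m) :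
    ∃ n, ∃ i : x.Ix, D.g n ≤ x.wt i ∧ Eqv (D.U k) (x.ch i) (D.g n) := by
  subst hx
  obtain ⟨n, hn⟩ := h
  obtain ⟨l, hl | ⟨i, hi, he⟩⟩ := D.child m k
  · exact absurd (hn.mono (D.anti (le_max_left n l))) (hl _ (D.anti (le_max_right n l)))
  · exact ⟨l, i, hi, he⟩

/-- `nat n` is the natural number `n` of the model -/
noncomputable def natI (n : ℕ) : ℕ := (D.nat n).choose
noncomputable def omI : ℕ := D.om.choose
theorem U_natI (n : ℕ) : D.U (D.natI n) = natN n := (D.nat n).choose_spec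
theorem U_omI : D.U D.omI = omN := D.om.choose_spec

theorem natI_zero (z : D.M) : ¬ z ∈ D.el (D.natI 0) := by
  obtain ⟨k, rfl⟩ := D.el_surj z
  intro h
  obtain ⟨n, i, _⟩ := D.exists_child (D.U_natI 0) h
  exact i.elim

theorem natI_succ (n : ℕ) (z : D.M) :
    z ∈ D.el (D.natI (n + 1)) ↔ z ∈ D.el (D.natI n) ∨ z = D.el (D.natI n) := by
  obtain ⟨k, rfl⟩ := D.el_surj z
  have h := D.truth (.iff (.mem 0 1) (.or (.mem 0 2) (.eq 0 2)))
    (cons k (cons (D.natI (n + 1)) (fun _ => D.natI n)))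
  rw [comp_cons D.el, comp_cons D.el, comp_cons D.U, comp_cons D.U] at h
  have h2 := h.2 ⟨0, by
    rw [frc_iff]
    intro q _
    rw [frc_or]
    simp only [Frc, cons_zero, cons_one, cons_two, U_natI]
    exact mm_succN⟩
  simpa using h2

theorem omI_iff (z : D.M) : z ∈ D.el D.omI ↔ ∃ n, z = D.el (D.natI n) := by
  obtain ⟨k, rfl⟩ := D.el_surj z
  constructor
  · intro h
    obtain ⟨n, i, _, he⟩ := D.exists_child D.U_omI h
    change ℕ at i
    change Eqv (D.U k) (natN i) (D.g n) at he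
    exact ⟨i, D.el_eq.2 ⟨n, by rw [U_natI]; exact he⟩⟩
  · rintro ⟨n, h⟩
    rw [h]
    refine ⟨0, ?_⟩
    rw [U_natI, U_omI]
    exact Mm.child omN n le_top

end Gen

end Pool.Agent.Helper73.Sym
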