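import Pool.Agent.Helper73.Sym.Force

/-!
Definability calculus inside a structure `(M, ∈)`, by instance search.
-/

namespace Pool.Agent.Helper73.Sym

section

variable {M : Type*} [Membership M M]

/-- merge the variables `v` (even places) and the parameters `a` (odd places) -/
def mix {α : Type*} (v a : ℕ → α) : ℕ → α := fun n => if n % 2 = 0 then v (n / 2) else a (n / 2)

/-- `S` is first-order definable with parameters -/
class Dfn (S : (ℕ → M) → Prop) : Prop where
  out : ∃ (φ : Fml) (a : ℕ → M), ∀ v, S v ↔ Sat φ (mix v a)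

theorem mix_even {α : Type*} (v a : ℕ → α) (n : ℕ) : mix v a (2 * n) = v n := by
  have h1 : 2 * n % 2 = 0 := by omega
  have h2 : 2 * n / 2 = n := by omega
  simp [mix, h2]

theorem mix_odd {α : Type*} (v a : ℕ → α) (n : ℕ) : mix v a (2 * n + 1) = a n := by
  have h1 : (2 * n + 1) % 2 = 1 := by omega
  have h2 : (2 * n + 1) / 2 = n := by omega
  simp [mix, h1, h2]

theorem Dfn.congr {S T : (ℕ → M) → Prop} (h : Dfn S) (e : ∀ v, T v ↔ S v) : Dfn T := by
  have : T = S := funext fun v => propext (e v)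
  rw [this]; exact h

/-- two definable relations can use the same parameters -/
theorem Dfn.common {S T : (ℕ → M) → Prop} (h1 : Dfn S) (h2 : Dfn T) :
    ∃ (φ ψ : Fml) (a : ℕ → M), (∀ v, S v ↔ Sat φ (mix v a)) ∧ ∀ v, T v ↔ Sat ψ (mix v a) := by
  obtain ⟨φ, a, ha⟩ := h1.out
  obtain ⟨ψ, b, hb⟩ := h2.out
  refine ⟨φ.ren (fun n => if n % 2 = 0 then n else 2 * (2 * (n / 2)) + 1),
    ψ.ren (fun n => if n % 2 = 0 then n else 2 * (2 * (n / 2) + 1) + 1), mix a b, ?_, ?_⟩
  · intro v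
    rw [ha, sat_ren]
    have : (fun n => mix v (mix a b) (if n % 2 = 0 then n else 2 * (2 * (n / 2)) + 1))
        = mix v a := by
      funext n
      split_ifs with h
      · simp [mix, h]
      · rw [mix_odd, mix_even]; simp [mix, h]
    rw [this]
  · intro v
    rw [hb, sat_ren]
    have : (fun n => mix v (mix a b) (if n % 2 = 0 then n else 2 * (2 * (n / 2) + 1) + 1))
        = mix v b := by
      funext n
      split_ifs with h
      · simp [mix, h]
      · rw [mix_odd, mix_odd]; simp [mix, h]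
    rw [this]

/-- a term: variable, constant, or a definable operation applied to terms -/
class DT (t : (ℕ → M) → M) : Prop where
  out : Dfn (fun v => v 0 = t (fun n => v (n + 1)))

theorem nonempty_of_zf (M : Type*) [Membership M M] [h : IsZF M] : Nonempty M := by
  obtain ⟨x, _⟩ := h.infinity
  exact ⟨x⟩

variable [IsZF M]

instance (priority := 50) Dfn.const (p : Prop) : Dfn (M := M) (fun _ => p) := by
  obtain ⟨x⟩ := nonempty_of_zf M
  by_cases hp : p
  · exact ⟨⟨.imp .bot .bot, fun _ => x, fun v => by simp [hp]⟩⟩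
  · exact ⟨⟨.bot, fun _ => x, fun v => by simp [hp]⟩⟩

omit [IsZF M] in
instance (priority := 1000) Dfn.imp {S T : (ℕ → M) → Prop} [h1 : Dfn S] [h2 : Dfn T] :
    Dfn (fun v => S v → T v) := by
  obtain ⟨φ, ψ, a, ha, hb⟩ := h1.common h2
  exact ⟨⟨.imp φ ψ, a, fun v => by rw [sat_imp, ← ha, ← hb]⟩⟩

omit [IsZF M] in
instance (priority := 1000) Dfn.not {S : (ℕ → M) → Prop} [h1 : Dfn S] :
    Dfn (fun v => ¬ S v) := by
  obtain ⟨φ, a, ha⟩ := h1.out
  exact ⟨⟨φ.not, a, fun v => by rw [sat_not, ← ha]⟩⟩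

omit [IsZF M] in
instance (priority := 1000) Dfn.and {S T : (ℕ → M) → Prop} [h1 : Dfn S] [h2 : Dfn T] :
    Dfn (fun v => S v ∧ T v) := by
  obtain ⟨φ, ψ, a, ha, hb⟩ := h1.common h2
  exact ⟨⟨.and φ ψ, a, fun v => by rw [sat_and, ← ha, ← hb]⟩⟩

omit [IsZF M] in
instance (priority := 1000) Dfn.or {S T : (ℕ → M) → Prop} [h1 : Dfn S] [h2 : Dfn T] :
    Dfn (fun v => S v ∨ T v) := by
  obtain ⟨φ, ψ, a, ha, hb⟩ := h1.common h2
  exact ⟨⟨.or φ ψ, a, fun v => by rw [sat_or, ← ha, ← hb]⟩⟩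

omit [IsZF M] in
instance (priority := 1000) Dfn.iff {S T : (ℕ → M) → Prop} [h1 : Dfn S] [h2 : Dfn T] :
    Dfn (fun v => S v ↔ T v) := by
  obtain ⟨φ, ψ, a, ha, hb⟩ := h1.common h2
  exact ⟨⟨.iff φ ψ, a, fun v => by rw [sat_iff, ← ha, ← hb]⟩⟩

omit [IsZF M] in
/-- substitution of variables -/
theorem Dfn.ren {S : (ℕ → M) → Prop} (h : Dfn S) (f : ℕ → ℕ) :
    Dfn (fun v => S (fun n => v (f n))) := by
  obtain ⟨φ, a, ha⟩ := h.out
  refine ⟨⟨φ.ren (fun n => if n % 2 = 0 then 2 * f (n / 2) else n), a, fun v => ?_⟩⟩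
  rw [ha, sat_ren]
  have : (fun n => mix v a (if n % 2 = 0 then 2 * f (n / 2) else n))
      = mix (fun n => v (f n)) a := by
    funext n
    split_ifs with h
    · rw [mix_even]; simp [mix, h]
    · simp [mix, h]
  rw [this]

omit [IsZF M] in
instance (priority := 1000) Dfn.all {S : M → (ℕ → M) → Prop}
    [h : Dfn (fun v => S (v 0) (fun n => v (n + 1)))] : Dfn (fun v => ∀ x, S x v) := by
  obtain ⟨φ, a, ha⟩ := h.out
  refine ⟨⟨.all (φ.ren (fun n => if n = 0 then 0 else if n % 2 = 0 then n - 1 else n + 1)), a,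
    fun v => ?_⟩⟩
  rw [sat_all]
  refine forall_congr' fun x => ?_
  rw [sat_ren]
  have h1 := ha (cons x v)
  simp only [cons_zero, cons_succ] at h1
  rw [h1]
  have : (fun n => cons x (mix v a) (if n = 0 then 0 else if n % 2 = 0 then n - 1 else n + 1))
      = mix (cons x v) a := by
    funext n
    rcases n with _ | n
    · rfl
    · rw [if_neg (by omega)]
      split_ifs with h
      · obtain ⟨k, rfl⟩ : ∃ k, n = 2 * k + 1 := ⟨n / 2, by omega⟩
        have e1 : 2 * k + 1 + 1 - 1 = 2 * k + 1 := by omega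
        rw [e1, cons_succ, mix_even]
        have e2 : 2 * k + 1 + 1 = 2 * (k + 1) := by omega
        rw [e2, mix_even, cons_succ]
      · obtain ⟨k, rfl⟩ : ∃ k, n = 2 * k := ⟨n / 2, by omega⟩
        rw [cons_succ, mix_odd, mix_odd]
  rw [this]

omit [IsZF M] in
instance (priority := 1000) Dfn.ex {S : M → (ℕ → M) → Prop}
    [h : Dfn (fun v => S (v 0) (fun n => v (n + 1)))] : Dfn (fun v => ∃ x, S x v) := by
  have h1 : Dfn (fun v => ¬ ∀ x, ¬ S x v) :=
    Dfn.not (h1 := Dfn.all (S := fun x v => ¬ S x v) (h := Dfn.not (h1 := h)))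
  exact h1.congr fun v => by push Not; rfl

instance (priority := 900) DT.var (n : ℕ) : DT (M := M) (fun v => v n) := by
  obtain ⟨x⟩ := nonempty_of_zf M
  exact ⟨⟨.eq 0 (2 * (n + 1)), fun _ => x, fun v => by
    rw [sat_eq]
    have h0 := mix_even v (fun _ => x) 0
    rw [mul_zero] at h0
    rw [h0, mix_even]⟩⟩

omit [IsZF M] in
instance (priority := 50) DT.const (c : M) : DT (fun _ => c) :=
  ⟨⟨.eq 0 1, fun _ => c, fun v => by
    rw [sat_eq]
    have h0 := mix_even v (fun _ => c) 0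
    have h1 := mix_odd v (fun _ => c) 0
    simp only [mul_zero, zero_add] at h0 h1
    rw [h0, h1]⟩⟩

omit [IsZF M] in
/-- substitution of a definable term in a definable relation -/
theorem Dfn.subst {R : (ℕ → M) → Prop} (h : Dfn R) {t : (ℕ → M) → M} (ht : DT t) :
    Dfn (fun v => R (cons (t v) v)) := by
  have h1 : Dfn (fun v => ∃ x, x = t v ∧ R (cons x v)) := by
    have h2 : Dfn (fun v : ℕ → M => v 0 = t (fun n => v (n + 1)) ∧
        R (cons (v 0) (fun n => v (n + 1)))) := by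
      have h3 : Dfn (fun v : ℕ → M => R (cons (v 0) (fun n => v (n + 1)))) := by
        refine h.congr fun v => ?_
        have : cons (v 0) (fun n => v (n + 1)) = v := by funext n; cases n <;> rfl
        rw [this]
      exact Dfn.and (h1 := ht.out) (h2 := h3)
    exact Dfn.ex (S := fun x v => x = t v ∧ R (cons x v)) (h := h2)
  exact h1.congr fun v => by simp

omit [IsZF M] in
theorem DT.shift {t : (ℕ → M) → M} (ht : DT t) (k : ℕ) :
    DT (fun v : ℕ → M => t (fun n => v (n + k))) := by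
  constructor
  have := ht.out
  refine (this.ren (fun n => if n = 0 then 0 else n + k)).congr fun v => ?_
  have e : (fun n => v (if n + 1 = 0 then 0 else n + 1 + k)) = fun n => v (n + k + 1) := by
    funext n
    rw [if_neg (by omega)]
    congr 1
    omega
  simp only [if_true, e]

omit [IsZF M] in
theorem Dfn.rel1 {R : M → Prop} (h : Dfn (fun v : ℕ → M => R (v 0)))
    {t : (ℕ → M) → M} (ht : DT t) : Dfn (fun v => R (t v)) :=
  (h.subst ht).congr fun _ => Iff.rfl

omit [IsZF M] in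
/-- binary relations applied to terms -/
theorem Dfn.rel2 {R : M → M → Prop} (h : Dfn (fun v : ℕ → M => R (v 0) (v 1)))
    {t u : (ℕ → M) → M} (ht : DT t) (hu : DT u) : Dfn (fun v => R (t v) (u v)) := by
  have h1 : Dfn (fun v : ℕ → M => R (v 1) (v 0)) := h.ren (fun n => if n = 0 then 1 else 0)
  have h4 : Dfn (fun v : ℕ → M => R (v 0) (u (fun n => v (n + 1)))) :=
    (h1.subst (hu.shift 1)).congr fun _ => Iff.rfl
  exact (h4.subst ht).congr fun _ => Iff.rfl

omit [IsZF M] in
theorem Dfn.rel3 {R : M → M → M → Prop} (h : Dfn (fun v : ℕ → M => R (v 0) (v 1) (v 2)))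
    {t u w : (ℕ → M) → M} (ht : DT t) (hu : DT u) (hw : DT w) :
    Dfn (fun v => R (t v) (u v) (w v)) := by
  have h1 : Dfn (fun v : ℕ → M => R (v 1) (v 2) (v 0)) :=
    (h.ren (fun n => if n = 0 then 1 else if n = 1 then 2 else 0)).congr fun _ => Iff.rfl
  have h2 : Dfn (fun v : ℕ → M => R (v 0) (v 1) (w (fun n => v (n + 2)))) :=
    (h1.subst (hw.shift 2)).congr fun _ => Iff.rfl
  have h3 : Dfn (fun v : ℕ → M => R (v 1) (v 0) (w (fun n => v (n + 2)))) :=
    (h2.ren (fun n => if n = 0 then 1 else if n = 1 then 0 else n)).congr fun v => by simp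
  have h4 : Dfn (fun v : ℕ → M => R (v 0) (u (fun n => v (n + 1))) (w (fun n => v (n + 1)))) :=
    (h3.subst (hu.shift 1)).congr fun _ => Iff.rfl
  exact (h4.subst ht).congr fun _ => Iff.rfl

omit [IsZF M] in
theorem Dfn.rel4 {R : M → M → M → M → Prop}
    (h : Dfn (fun v : ℕ → M => R (v 0) (v 1) (v 2) (v 3)))
    {t u w r : (ℕ → M) → M} (ht : DT t) (hu : DT u) (hw : DT w) (hr : DT r) :
    Dfn (fun v => R (t v) (u v) (w v) (r v)) := by
  have h1 : Dfn (fun v : ℕ → M => R (v 1) (v 2) (v 3) (v 0)) :=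
    (h.ren (fun n => if n = 0 then 1 else if n = 1 then 2 else if n = 2 then 3 else 0)).congr
      fun _ => Iff.rfl
  have h2 : Dfn (fun v : ℕ → M => R (v 0) (v 1) (v 2) (r (fun n => v (n + 3)))) :=
    (h1.subst (hr.shift 3)).congr fun _ => Iff.rfl
  have h3 : Dfn (fun v : ℕ → M => R (v 1) (v 2) (v 0) (r (fun n => v (n + 3)))) :=
    (h2.ren (fun n => if n = 0 then 1 else if n = 1 then 2 else if n = 2 then 0 else n)).congr
      fun v => by simp
  have h4 : Dfn (fun v : ℕ → M => R (v 0) (v 1) (w (fun n => v (n + 2)))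
      (r (fun n => v (n + 2)))) :=
    (h3.subst (hw.shift 2)).congr fun _ => Iff.rfl
  have h5 : Dfn (fun v : ℕ → M => R (v 1) (v 0) (w (fun n => v (n + 2)))
      (r (fun n => v (n + 2)))) :=
    (h4.ren (fun n => if n = 0 then 1 else if n = 1 then 0 else n)).congr fun v => by simp
  have h6 : Dfn (fun v : ℕ → M => R (v 0) (u (fun n => v (n + 1))) (w (fun n => v (n + 1)))
      (r (fun n => v (n + 1)))) :=
    (h5.subst (hu.shift 1)).congr fun _ => Iff.rfl
  exact (h6.subst ht).congr fun _ => Iff.rfl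

theorem DT.app1 {f : M → M} (h : Dfn (fun v : ℕ → M => v 0 = f (v 1))) {t : (ℕ → M) → M}
    (ht : DT t) : DT (fun v => f (t v)) := by
  constructor
  exact Dfn.rel2 (R := fun y x => y = f x) h (DT.var 0) (ht.shift 1)

theorem DT.app2 {f : M → M → M} (h : Dfn (fun v : ℕ → M => v 0 = f (v 1) (v 2)))
    {t u : (ℕ → M) → M} (ht : DT t) (hu : DT u) : DT (fun v => f (t v) (u v)) := by
  constructor
  exact Dfn.rel3 (R := fun y x z => y = f x z) h (DT.var 0) (ht.shift 1) (hu.shift 1)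

theorem DT.app3 {f : M → M → M → M} (h : Dfn (fun v : ℕ → M => v 0 = f (v 1) (v 2) (v 3)))
    {t u w : (ℕ → M) → M} (ht : DT t) (hu : DT u) (hw : DT w) :
    DT (fun v => f (t v) (u v) (w v)) := by
  constructor
  exact Dfn.rel4 (R := fun y x z a => y = f x z a) h (DT.var 0) (ht.shift 1) (hu.shift 1)
    (hw.shift 1)

instance (priority := 1000) Dfn.mem {t u : (ℕ → M) → M} [ht : DT t] [hu : DT u] :
    Dfn (fun v => t v ∈ u v) := by
  refine Dfn.rel2 (R := fun x y => x ∈ y) ?_ ht hu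
  obtain ⟨c⟩ := nonempty_of_zf M
  refine ⟨⟨.mem 0 2, fun _ => c, fun v => ?_⟩⟩
  have h0 := mix_even v (fun _ => c) 0
  have h1 := mix_even v (fun _ => c) 1
  rw [mul_zero] at h0
  rw [mul_one] at h1
  rw [sat_mem, h0, h1]

instance (priority := 1000) Dfn.eq {t u : (ℕ → M) → M} [ht : DT t] [hu : DT u] :
    Dfn (fun v => t v = u v) := by
  refine Dfn.rel2 (R := fun x y => x = y) ?_ ht hu
  obtain ⟨c⟩ := nonempty_of_zf M
  refine ⟨⟨.eq 0 2, fun _ => c, fun v => ?_⟩⟩
  have h0 := mix_even v (fun _ => c) 0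
  have h1 := mix_even v (fun _ => c) 1
  rw [mul_zero] at h0
  rw [mul_one] at h1
  rw [sat_eq, h0, h1]

example (c : M) : Dfn (fun v : ℕ → M => ∃ u, u ∈ v 0 ∧ ∀ w, w ∈ u → (w = c ∨ ¬ u ∈ w)) :=
  inferInstance

end

end Pool.Agent.Helper73.Sym
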