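import Pool.Agent.Helper73.Sym.Axioms
import Pool.Agent.Helper73.Sym.Omega

/-!
Values of names in a generic model; names of sets, pairs and ordered pairs.
-/

namespace Pool.Agent.Helper73.Sym

section names

variable {P G : Type} [PartialOrder P] [OrderTop P]

/-- the name of the set of the values of the names `τ i` -/
def uN {ι : Type} (τ : ι → Nm P) : Nm P := .mk ι τ (fun _ => ⊤)

theorem mm_uN {ι : Type} (τ : ι → Nm P) (i : ι) (p : P) : Mm (τ i) (uN τ) p :=
  Mm.child (uN τ) i le_top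

theorem eqv_uN {ι κ : Type} {τ : ι → Nm P} {σ : κ → Nm P} {p : P}
    (h1 : ∀ i, ∃ k, Eqv (τ i) (σ k) p) (h2 : ∀ k, ∃ i, Eqv (τ i) (σ k) p) :
    Eqv (uN τ) (uN σ) p := by
  rw [eqv_iff]
  constructor
  · intro i q hq _
    obtain ⟨k, hk⟩ := h1 i
    exact ⟨q, le_rfl, k, le_top, hk.mono hq⟩
  · intro k q hq _
    obtain ⟨i, hi⟩ := h2 k
    exact ⟨q, le_rfl, i, le_top, hi.mono hq⟩

/-- the name of the unordered pair -/
def upN (x y : Nm P) : Nm P := uN (fun b : Bool => if b then x else y)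

theorem eqv_upN {x y x' y' : Nm P} {p : P} (h1 : Eqv x x' p) (h2 : Eqv y y' p) :
    Eqv (upN x y) (upN x' y') p := by
  apply eqv_uN
  · intro b
    refine ⟨b, ?_⟩
    cases b
    · exact h2
    · exact h1
  · intro b
    refine ⟨b, ?_⟩
    cases b
    · exact h2
    · exact h1

/-- the name of the ordered pair -/
def opN (x y : Nm P) : Nm P := upN (upN x x) (upN x y)

theorem eqv_opN {x y x' y' : Nm P} {p : P} (h1 : Eqv x x' p) (h2 : Eqv y y' p) :
    Eqv (opN x y) (opN x' y') p := eqv_upN (eqv_upN h1 h1) (eqv_upN h1 h2)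

variable [Group G] [MulAction G P] [SymSys P G]

theorem smul_uN (g : G) {ι : Type} (τ : ι → Nm P) : g • uN τ = uN (fun i => g • τ i) := by
  show Nm.mk _ _ _ = Nm.mk _ _ _
  congr 1
  funext i
  exact smul_top' G g

theorem smul_upN (g : G) (x y : Nm P) : g • upN x y = upN (g • x) (g • y) := by
  rw [upN, smul_uN, upN]
  congr 1
  funext b
  cases b <;> rfl

theorem smul_opN (g : G) (x y : Nm P) : g • opN x y = opN (g • x) (g • y) := by
  rw [opN, smul_upN, smul_upN, smul_upN, opN]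

theorem hs_upN {x y : Nm P} (hx : HS G x) (hy : HS G y) : HS G (upN x y) := by
  obtain ⟨H, hH, h1⟩ := hx.symm'
  obtain ⟨K, hK, h2⟩ := hy.symm'
  refine HS.intro ⟨H ⊓ K, SymSys.inter hH hK, fun g hg p => ?_⟩ (fun b => ?_)
  · rw [smul_upN]
    exact eqv_upN (h1 g hg.1 p) (h2 g hg.2 p)
  · change Bool at b
    cases b
    · exact hy
    · exact hx

theorem hs_opN {x y : Nm P} (hx : HS G x) (hy : HS G y) : HS G (opN x y) :=
  hs_upN (hs_upN hx hx) (hs_upN hx hy)

end names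

namespace Gen

variable {P G : Type} [PartialOrder P] [OrderTop P] [Group G] [MulAction G P] [SymSys P G]
  (D : Gen P G)

instance : StdZF D.M where
  std := ⟨fun n => D.el (D.natI n), D.el D.omI, D.natI_zero, D.natI_succ, D.omI_iff⟩

/-- the name belongs to the generic model -/
def Has (x : Nm P) : Prop := ∃ k, D.U k = x

open Classical in
/-- the value of a name in the generic model -/
noncomputable def ev (x : Nm P) : D.M :=
  D.el (if h : ∃ k, D.U k = x then h.choose else 0)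

variable {D}

theorem Has.ev {x : Nm P} (h : D.Has x) : ∃ k, D.U k = x ∧ D.ev x = D.el k := by
  classical
  have h' : ∃ k, D.U k = x := h
  refine ⟨h'.choose, h'.choose_spec, ?_⟩
  unfold Gen.ev
  rw [dif_pos h']

theorem Has.hs {x : Nm P} (h : D.Has x) : HS G x := by
  obtain ⟨k, rfl⟩ := h
  exact D.hU k

theorem has_U (k : ℕ) : D.Has (D.U k) := ⟨k, rfl⟩

theorem ev_U (k : ℕ) : D.ev (D.U k) = D.el k := by
  obtain ⟨l, h1, h2⟩ := (has_U (D := D) k).ev
  rw [h2, D.el_eq]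
  exact ⟨0, by rw [h1]; exact Eqv.refl _ _⟩

theorem ev_surj (z : D.M) : ∃ x, D.Has x ∧ D.ev x = z := by
  obtain ⟨k, rfl⟩ := D.el_surj z
  exact ⟨D.U k, has_U k, ev_U k⟩

theorem ev_mem {x y : Nm P} (hx : D.Has x) (hy : D.Has y) :
    D.ev x ∈ D.ev y ↔ ∃ n, Mm x y (D.g n) := by
  obtain ⟨k, rfl⟩ := hx
  obtain ⟨l, rfl⟩ := hy
  rw [ev_U, ev_U, D.el_mem]

theorem ev_eq {x y : Nm P} (hx : D.Has x) (hy : D.Has y) :
    D.ev x = D.ev y ↔ ∃ n, Eqv x y (D.g n) := by
  obtain ⟨k, rfl⟩ := hx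
  obtain ⟨l, rfl⟩ := hy
  rw [ev_U, ev_U, D.el_eq]

/-- the truth lemma -/
theorem truth_ev (φ : Fml) (v : ℕ → Nm P) (hv : ∀ n, D.Has (v n)) :
    Sat φ (fun n => D.ev (v n)) ↔ ∃ n, Frc G φ v (D.g n) := by
  choose k hk using hv
  obtain rfl : (fun n => D.U (k n)) = v := funext hk
  have : (fun n => D.ev ((fun n => D.U (k n)) n)) = fun n => D.el (k n) := by
    funext n; exact ev_U _
  rw [this]
  exact D.truth φ k

theorem mem_ev_mk {ι : Type} {τ : ι → Nm P} {c : ι → P} (h : D.Has (.mk ι τ c))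
    (hτ : ∀ i, (∃ n, D.g n ≤ c i) → D.Has (τ i)) (z : D.M) :
    z ∈ D.ev (.mk ι τ c) ↔ ∃ i, (∃ n, D.g n ≤ c i) ∧ z = D.ev (τ i) := by
  obtain ⟨x, hx, rfl⟩ := ev_surj z
  constructor
  · intro hz
    obtain ⟨m, hm, hm'⟩ := h.ev
    obtain ⟨k, rfl⟩ := hx
    rw [ev_U, hm'] at hz
    obtain ⟨n, i, hi, he⟩ := D.exists_child hm hz
    refine ⟨i, ⟨n, hi⟩, ?_⟩
    rw [ev_eq (has_U k) (hτ i ⟨n, hi⟩)]
    exact ⟨n, he⟩
  · rintro ⟨i, ⟨n, hn⟩, he⟩
    rw [he, ev_mem (hτ i ⟨n, hn⟩) h]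
    exact ⟨n, Mm.child (.mk ι τ c) i hn⟩

theorem mem_ev_uN {ι : Type} {τ : ι → Nm P} (h : D.Has (uN τ)) (hτ : ∀ i, D.Has (τ i))
    (z : D.M) : z ∈ D.ev (uN τ) ↔ ∃ i, z = D.ev (τ i) := by
  rw [uN, mem_ev_mk h (fun i _ => hτ i)]
  exact exists_congr fun i => ⟨fun h => h.2, fun h => ⟨⟨0, le_top⟩, h⟩⟩

theorem ev_upN {x y : Nm P} (h : D.Has (upN x y)) (hx : D.Has x) (hy : D.Has y) :
    D.ev (upN x y) = upair (D.ev x) (D.ev y) := by
  apply mext
  intro z
  rw [upN, mem_ev_uN h (fun b => by cases b; exacts [hy, hx]), mem_upair]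
  constructor
  · rintro ⟨b, hb⟩
    cases b
    · exact Or.inr hb
    · exact Or.inl hb
  · rintro (h | h)
    · exact ⟨true, h⟩
    · exact ⟨false, h⟩

variable (D) in
/-- the model is closed under pairing of names -/
def Upc : Prop := ∀ x y, D.Has x → D.Has y → D.Has (upN x y)

theorem Upc.opN (h : D.Upc) {x y : Nm P} (hx : D.Has x) (hy : D.Has y) :
    D.Has (opN x y) := h _ _ (h _ _ hx hx) (h _ _ hx hy)

theorem ev_opN (h : D.Upc) {x y : Nm P} (hx : D.Has x) (hy : D.Has y) :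
    D.ev (opN x y) = op (D.ev x) (D.ev y) := by
  rw [Sym.opN, ev_upN (h _ _ (h _ _ hx hx) (h _ _ hx hy)) (h _ _ hx hx) (h _ _ hx hy),
    ev_upN (h _ _ hx hx) hx hx, ev_upN (h _ _ hx hy) hx hy, op]

theorem has_nat (n : ℕ) : D.Has (natN n) := D.nat n

theorem has_om : D.Has omN := D.om

theorem ev_natN (n : ℕ) : D.ev (natN n) = Sym.nat n := by
  have h1 : ∀ n, D.ev (natN n) = D.el (D.natI n) := by
    intro n
    rw [← D.U_natI n, ev_U]
  rw [h1]
  induction n with
  | zero => exact mext fun z => iff_of_false (D.natI_zero z) (mem_nat_zero z)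
  | succ n ih => exact mext fun z => by rw [D.natI_succ, mem_nat_succ, ih]

theorem ev_omN : D.ev omN = Sym.om := by
  apply mext
  intro z
  have : (omN : Nm P) = uN natN := rfl
  rw [this, mem_ev_uN has_om has_nat, mem_om]
  simp only [ev_natN]

end Gen

section

variable {P G : Type} [PartialOrder P] [OrderTop P] [Group G] [MulAction G P] [SymSys P G]

/-- existence of generic models closed under pairing, containing given names -/
theorem exists_gen_up [Countable P] (p0 : P) {K : Type} [Countable K] (A : K → Nm P)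
    (hA : ∀ k, HS G (A k)) {E : Type} [Countable E]
    (T : E → Nm P → Set P) (hT : ∀ j x, HS G x → ∀ p, ∃ q ≤ p, q ∈ T j x) :
    ∃ D : Gen P G, D.g 0 = p0 ∧ D.Upc ∧ (∀ k, D.Has (A k)) ∧
      ∀ j x, D.Has x → ∃ n, D.g n ∈ T j x := by
  classical
  obtain ⟨e, he⟩ := exists_surjective_nat (Option K)
  obtain ⟨e', he'⟩ := exists_surjective_nat (Option E)
  obtain ⟨D, h1, h2, h3, h4⟩ := exists_gen_ops (G := G) p0
    (fun n => match e n with
      | none => natN 0
      | some k => A k) (fun n => by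
        rcases h : e n with _ | k
        · exact natN_hs 0
        · exact hA k)
    (fun n x => match e' n with
      | none => Set.univ
      | some j => T j x) (fun n x hx p => by
        rcases h : e' n with _ | k
        · exact ⟨p, le_rfl, trivial⟩
        · exact hT k x hx p)
    (fun _ l => upN (l.getD 0 (natN 0)) (l.getD 1 (natN 0))) (fun b l hl => by
        have key : ∀ n, HS G (l.getD n (natN 0) : Nm P) := by
          intro n
          rw [List.getD_eq_getElem?_getD]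
          rcases h : l[n]? with _ | x
          · exact natN_hs 0
          · exact hl x (List.mem_of_getElem? h)
        exact hs_upN (key 0) (key 1))
  refine ⟨D, h1, ?_, ?_, ?_⟩
  · rintro _ _ ⟨i, rfl⟩ ⟨j, rfl⟩
    obtain ⟨m, hm⟩ := h4 0 [i, j]
    exact ⟨m, hm⟩
  · intro k
    obtain ⟨n, hn⟩ := he (some k)
    obtain ⟨m, hm⟩ := h2 n
    rw [hn] at hm
    exact ⟨m, hm⟩
  · rintro j _ ⟨m, rfl⟩
    obtain ⟨n, hn⟩ := he' (some j)
    obtain ⟨l, hl⟩ := h3 n m
    rw [hn] at hl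
    exact ⟨l, hl⟩

end

end Pool.Agent.Helper73.Sym
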