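import Pool.Agent.Helper73.Sym.Names

/-!
Forcing of formulas over hereditarily symmetric names.
-/

namespace Pool.Agent.Helper73.Sym

namespace Fml

def not (φ : Fml) : Fml := imp φ bot
def and (φ ψ : Fml) : Fml := not (imp φ (not ψ))
def or (φ ψ : Fml) : Fml := imp (not φ) ψ
def iff (φ ψ : Fml) : Fml := and (imp φ ψ) (imp ψ φ)
def ex (φ : Fml) : Fml := not (all (not φ))

/-- lift a renaming under a binder -/
def lift (f : ℕ → ℕ) : ℕ → ℕ
  | 0 => 0
  | n + 1 => f n + 1

/-- rename variables -/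
def ren : Fml → (ℕ → ℕ) → Fml
  | mem i j, f => mem (f i) (f j)
  | eq i j, f => eq (f i) (f j)
  | bot, _ => bot
  | imp φ ψ, f => imp (φ.ren f) (ψ.ren f)
  | all φ, f => all (φ.ren (lift f))

/-- a bound for the free variables -/
def bd : Fml → ℕ
  | mem i j => max i j + 1
  | eq i j => max i j + 1
  | bot => 0
  | imp φ ψ => max φ.bd ψ.bd
  | all φ => φ.bd

end Fml

section sat

variable {M : Type*} [Membership M M]

@[simp] theorem cons_zero {α : Type*} (x : α) (v : ℕ → α) : cons x v 0 = x := rfl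
@[simp] theorem cons_succ {α : Type*} (x : α) (v : ℕ → α) (n : ℕ) :
    cons x v (n + 1) = v n := rfl
@[simp] theorem cons_one {α : Type*} (x : α) (v : ℕ → α) : cons x v 1 = v 0 := rfl
@[simp] theorem cons_two {α : Type*} (x : α) (v : ℕ → α) : cons x v 2 = v 1 := rfl
@[simp] theorem cons_three {α : Type*} (x : α) (v : ℕ → α) : cons x v 3 = v 2 := rfl
@[simp] theorem cons_four {α : Type*} (x : α) (v : ℕ → α) : cons x v 4 = v 3 := rfl
@[simp] theorem cons_five {α : Type*} (x : α) (v : ℕ → α) : cons x v 5 = v 4 := rfl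
@[simp] theorem cons_six {α : Type*} (x : α) (v : ℕ → α) : cons x v 6 = v 5 := rfl
@[simp] theorem cons_seven {α : Type*} (x : α) (v : ℕ → α) : cons x v 7 = v 6 := rfl

theorem comp_cons {α β : Type*} (f : α → β) (x : α) (v : ℕ → α) :
    (fun n => f (cons x v n)) = cons (f x) (fun n => f (v n)) := by
  funext n; cases n <;> rfl

theorem cons_lift {α : Type*} (x : α) (v : ℕ → α) (f : ℕ → ℕ) :
    (fun n => cons x v (Fml.lift f n)) = cons x (fun n => v (f n)) := by
  funext n; cases n <;> rfl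

@[simp] theorem sat_mem (i j : ℕ) (v : ℕ → M) : Sat (.mem i j) v ↔ v i ∈ v j := Iff.rfl
@[simp] theorem sat_eq (i j : ℕ) (v : ℕ → M) : Sat (.eq i j) v ↔ v i = v j := Iff.rfl
@[simp] theorem sat_bot (v : ℕ → M) : Sat .bot v ↔ False := Iff.rfl
@[simp] theorem sat_imp (φ ψ : Fml) (v : ℕ → M) :
    Sat (.imp φ ψ) v ↔ (Sat φ v → Sat ψ v) := Iff.rfl
@[simp] theorem sat_all (φ : Fml) (v : ℕ → M) : Sat (.all φ) v ↔ ∀ x, Sat φ (cons x v) :=
  Iff.rfl
@[simp] theorem sat_not (φ : Fml) (v : ℕ → M) : Sat φ.not v ↔ ¬ Sat φ v := Iff.rfl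
@[simp] theorem sat_and (φ ψ : Fml) (v : ℕ → M) : Sat (φ.and ψ) v ↔ Sat φ v ∧ Sat ψ v := by
  simp [Fml.and]
@[simp] theorem sat_or (φ ψ : Fml) (v : ℕ → M) : Sat (φ.or ψ) v ↔ Sat φ v ∨ Sat ψ v := by
  simp only [Fml.or, sat_imp, sat_not]
  tauto
@[simp] theorem sat_iff (φ ψ : Fml) (v : ℕ → M) :
    Sat (φ.iff ψ) v ↔ (Sat φ v ↔ Sat ψ v) := by
  simp only [Fml.iff, sat_and, sat_imp]
  tauto
@[simp] theorem sat_ex (φ : Fml) (v : ℕ → M) : Sat (.ex φ) v ↔ ∃ x, Sat φ (cons x v) := by
  simp [Fml.ex]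

theorem sat_ren (φ : Fml) (f : ℕ → ℕ) (v : ℕ → M) :
    Sat (φ.ren f) v ↔ Sat φ (fun n => v (f n)) := by
  induction φ generalizing f v with
  | mem i j => rfl
  | eq i j => rfl
  | bot => rfl
  | imp φ ψ h1 h2 => simp only [Fml.ren, sat_imp, h1, h2]
  | all φ ih => simp only [Fml.ren, sat_all, ih, cons_lift]

end sat

section

variable {P : Type} (G : Type) [PartialOrder P] [OrderTop P] [Group G] [MulAction G P]
  [SymSys P G]

/-- `Frc G φ v p`: the condition `p` forces `φ` for the names `v`, quantifiers ranging over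
hereditarily symmetric names -/
def Frc : Fml → (ℕ → Nm P) → P → Prop
  | .mem i j, v, p => Mm (v i) (v j) p
  | .eq i j, v, p => Eqv (v i) (v j) p
  | .bot, _, _ => False
  | .imp φ ψ, v, p => ∀ q ≤ p, Frc φ v q → Frc ψ v q
  | .all φ, v, p => ∀ x, HS G x → Frc φ (cons x v) p

variable {G}

theorem Frc.mono {φ : Fml} {v : ℕ → Nm P} {p q : P} (h : Frc G φ v p) (hq : q ≤ p) :
    Frc G φ v q := by
  induction φ generalizing v with
  | mem i j => exact Mm.mono h hq
  | eq i j => exact Eqv.mono h hq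
  | bot => exact h
  | imp φ ψ h1 h2 => exact fun r hr => h r (hr.trans hq)
  | all φ ih => exact fun x hx => ih (h x hx)

theorem Frc.dense {φ : Fml} {v : ℕ → Nm P} {p : P} (h : ∀ q ≤ p, ∃ r ≤ q, Frc G φ v r) :
    Frc G φ v p := by
  induction φ generalizing v p with
  | mem i j => exact Mm.dense h
  | eq i j => exact Eqv.dense h
  | bot => obtain ⟨r, _, hr⟩ := h p le_rfl; exact hr
  | imp φ ψ h1 h2 =>
    intro q hq hφ
    apply h2
    intro r hr
    obtain ⟨r', hr', h3⟩ := h r (hr.trans hq)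
    exact ⟨r', hr', h3 r' le_rfl (hφ.mono (hr'.trans hr))⟩
  | all φ ih =>
    intro x hx
    apply ih
    intro q hq
    obtain ⟨r, hr, h3⟩ := h q hq
    exact ⟨r, hr, h3 x hx⟩

theorem Frc.congr {φ : Fml} {v w : ℕ → Nm P} {p : P} (hvw : ∀ n, Eqv (v n) (w n) p)
    (h : Frc G φ v p) : Frc G φ w p := by
  induction φ generalizing v w p with
  | mem i j => exact Mm.congr_right (hvw j) (Mm.congr_left (hvw i) h)
  | eq i j => exact ((hvw i).symm.trans h).trans (hvw j)
  | bot => exact h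
  | imp φ ψ h1 h2 =>
    intro q hq hφ
    have hq' : ∀ n, Eqv (v n) (w n) q := fun n => (hvw n).mono hq
    exact h2 hq' (h q hq (h1 (fun n => (hq' n).symm) hφ))
  | all φ ih =>
    intro x hx
    refine ih (v := cons x v) (fun n => ?_) (h x hx)
    cases n with
    | zero => exact Eqv.refl _ _
    | succ n => exact hvw n

theorem frc_smul (g : G) {φ : Fml} {v : ℕ → Nm P} {p : P} :
    Frc G φ (fun n => g • v n) (g • p) ↔ Frc G φ v p := by
  induction φ generalizing v p with
  | mem i j => exact mm_smul g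
  | eq i j => exact eqv_smul g
  | bot => rfl
  | imp φ ψ h1 h2 =>
    constructor
    · intro h q hq hφ
      exact h2.1 (h (g • q) (SymSys.smul_mono g hq) (h1.2 hφ))
    · intro h q hq hφ
      obtain ⟨q', rfl⟩ : ∃ q', g • q' = q := ⟨g⁻¹ • q, by simp⟩
      exact h2.2 (h q' ((smul_le_iff G g).1 hq) (h1.1 hφ))
  | all φ ih =>
    constructor
    · intro h x hx
      have := h (g • x) (hx.smul g)
      rw [← comp_cons (fun y => g • y)] at this
      exact ih.1 this
    · intro h x hx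
      have := ih.2 (h (g⁻¹ • x) (hx.smul g⁻¹))
      rw [comp_cons (fun y => g • y)] at this
      simpa using this

theorem frc_depends {φ : Fml} {v w : ℕ → Nm P} {p : P} (hvw : ∀ n < φ.bd, v n = w n) :
    Frc G φ v p ↔ Frc G φ w p := by
  induction φ generalizing v w p with
  | mem i j =>
    simp only [Fml.bd] at hvw
    simp only [Frc, hvw i (by omega), hvw j (by omega)]
  | eq i j =>
    simp only [Fml.bd] at hvw
    simp only [Frc, hvw i (by omega), hvw j (by omega)]
  | bot => rfl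
  | imp φ ψ h1 h2 =>
    simp only [Fml.bd] at hvw
    simp only [Frc]
    refine forall₂_congr fun q _ => ?_
    rw [h1 (fun n hn => hvw n (by omega)), h2 (fun n hn => hvw n (by omega))]
  | all φ ih =>
    simp only [Fml.bd] at hvw
    simp only [Frc]
    refine forall₂_congr fun x _ => ih ?_
    intro n hn
    cases n with
    | zero => rfl
    | succ n => exact hvw n (by omega)

theorem frc_ren (φ : Fml) (f : ℕ → ℕ) (v : ℕ → Nm P) (p : P) :
    Frc G (φ.ren f) v p ↔ Frc G φ (fun n => v (f n)) p := by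
  induction φ generalizing f v p with
  | mem i j => rfl
  | eq i j => rfl
  | bot => rfl
  | imp φ ψ h1 h2 => simp only [Fml.ren, Frc, h1, h2]
  | all φ ih => simp only [Fml.ren, Frc, ih, cons_lift]

/-! ### derived connectives -/

theorem frc_not {φ : Fml} {v : ℕ → Nm P} {p : P} :
    Frc G φ.not v p ↔ ∀ q ≤ p, ¬ Frc G φ v q := Iff.rfl

theorem frc_imp {φ ψ : Fml} {v : ℕ → Nm P} {p : P} :
    Frc G (.imp φ ψ) v p ↔ ∀ q ≤ p, Frc G φ v q → Frc G ψ v q := Iff.rfl

theorem frc_all {φ : Fml} {v : ℕ → Nm P} {p : P} :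
    Frc G (.all φ) v p ↔ ∀ x, HS G x → Frc G φ (cons x v) p := Iff.rfl

/-- a condition not forcing `φ` has an extension forcing the negation -/
theorem exists_frc_not {φ : Fml} {v : ℕ → Nm P} {p : P} (h : ¬ Frc G φ v p) :
    ∃ q ≤ p, Frc G φ.not v q := by
  by_contra hc
  push Not at hc
  apply h
  apply Frc.dense
  intro q hq
  have := hc q hq
  rw [frc_not] at this
  push Not at this
  exact this

theorem frc_and {φ ψ : Fml} {v : ℕ → Nm P} {p : P} :
    Frc G (φ.and ψ) v p ↔ Frc G φ v p ∧ Frc G ψ v p := by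
  constructor
  · intro h
    constructor
    · by_contra hc
      obtain ⟨q, hq, h1⟩ := exists_frc_not hc
      exact h q hq fun r hr hφ => absurd hφ (h1 r hr)
    · by_contra hc
      obtain ⟨q, hq, h1⟩ := exists_frc_not hc
      exact h q hq fun r _ _ => h1.mono (by assumption)
  · intro h q hq h1
    exact h1 q le_rfl (h.1.mono hq) q le_rfl (h.2.mono hq)

theorem frc_or {φ ψ : Fml} {v : ℕ → Nm P} {p : P} :
    Frc G (φ.or ψ) v p ↔ ∀ q ≤ p, ∃ r ≤ q, Frc G φ v r ∨ Frc G ψ v r := by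
  constructor
  · intro h q hq
    by_cases hφ : ∃ r ≤ q, Frc G φ v r
    · obtain ⟨r, hr, h1⟩ := hφ
      exact ⟨r, hr, Or.inl h1⟩
    · push Not at hφ
      exact ⟨q, le_rfl, Or.inr (h q hq hφ)⟩
  · intro h q hq h1
    apply Frc.dense
    intro r hr
    obtain ⟨r', hr', h2⟩ := h r (hr.trans hq)
    rcases h2 with h2 | h2
    · exact absurd h2 (h1 r' (hr'.trans hr))
    · exact ⟨r', hr', h2⟩

theorem frc_iff {φ ψ : Fml} {v : ℕ → Nm P} {p : P} :
    Frc G (φ.iff ψ) v p ↔ ∀ q ≤ p, (Frc G φ v q ↔ Frc G ψ v q) := by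
  rw [Fml.iff, frc_and, frc_imp, frc_imp]
  constructor
  · intro h q hq
    exact ⟨h.1 q hq, h.2 q hq⟩
  · intro h
    exact ⟨fun q hq => (h q hq).1, fun q hq => (h q hq).2⟩

theorem frc_ex {φ : Fml} {v : ℕ → Nm P} {p : P} :
    Frc G (.ex φ) v p ↔ ∀ q ≤ p, ∃ r ≤ q, ∃ x, HS G x ∧ Frc G φ (cons x v) r := by
  constructor
  · intro h q hq
    have this : ¬ ∀ x, HS G x → Frc G φ.not (cons x v) q := fun hh => h q hq hh
    push Not at this
    obtain ⟨x, hx, h1⟩ := this
    rw [frc_not] at h1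
    push Not at h1
    obtain ⟨r, hr, h2⟩ := h1
    exact ⟨r, hr, x, hx, h2⟩
  · intro h q hq h1
    obtain ⟨r, hr, x, hx, h2⟩ := h q hq
    exact h1 x hx r hr h2

theorem frc_ex_intro {φ : Fml} {v : ℕ → Nm P} {p : P} {x : Nm P} (hx : HS G x)
    (h : Frc G φ (cons x v) p) : Frc G (.ex φ) v p :=
  frc_ex.2 fun q hq => ⟨q, le_rfl, x, hx, h.mono hq⟩

end

/-! ### names of natural numbers -/

section

variable {P G : Type} [PartialOrder P] [OrderTop P] [Group G] [MulAction G P] [SymSys P G]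

/-- the name of the successor of `x` -/
def succN (x : Nm P) : Nm P :=
  .mk (Option x.Ix) (fun o => o.elim x x.ch) (fun o => o.elim ⊤ x.wt)

/-- the name of the natural number `n` -/
def natN : ℕ → Nm P
  | 0 => .mk Empty (fun e => e.elim) (fun e => e.elim)
  | n + 1 => succN (natN n)

/-- the name of the set of natural numbers -/
def omN : Nm P := .mk ℕ natN (fun _ => ⊤)

theorem mm_succN {x z : Nm P} {p : P} :
    Mm z (succN x) p ↔ ∀ q ≤ p, ∃ r ≤ q, Mm z x r ∨ Eqv z x r := by
  constructor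
  · intro h q hq
    obtain ⟨r, hr, o, ho, he⟩ := h q hq
    cases o with
    | none => exact ⟨r, hr, Or.inr he⟩
    | some i => exact ⟨r, hr, Or.inl (Mm.congr_left (Eqv.symm he) (Mm.child x i ho))⟩
  · intro h
    apply Mm.dense
    intro q hq
    obtain ⟨r, hr, h1 | h1⟩ := h q hq
    · refine ⟨r, hr, fun s hs => ?_⟩
      obtain ⟨t, ht, i, hi, he⟩ := h1 s hs
      exact ⟨t, ht, some i, hi, he⟩
    · exact ⟨r, hr, fun s hs => ⟨s, le_rfl, none, le_top, h1.mono hs⟩⟩

theorem succN_smul (g : G) (x : Nm P) : g • succN x = succN (g • x) := by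
  cases x with
  | mk ι τ c =>
    show Nm.mk _ _ _ = Nm.mk _ _ _
    congr 1
    · funext o
      cases o <;> rfl
    · funext o
      cases o with
      | none => exact smul_top' G g
      | some i => rfl

theorem natN_smul (g : G) (n : ℕ) : g • (natN n : Nm P) = natN n := by
  induction n with
  | zero =>
    show Nm.mk _ _ _ = Nm.mk _ _ _
    congr 1
    · funext e; exact e.elim
    · funext e; exact e.elim
  | succ n ih => rw [natN, succN_smul, ih]

theorem omN_smul (g : G) : g • (omN : Nm P) = omN := by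
  show Nm.mk _ _ _ = Nm.mk _ _ _
  congr 1
  · funext n; exact natN_smul g n
  · funext n; exact smul_top' G g

theorem symm_of_fixed {x : Nm P} (h : ∀ g : G, g • x = x) : Symm G x :=
  ⟨⊤, SymSys.top_mem, fun g _ p => by rw [h g]; exact Eqv.refl _ _⟩

theorem natN_hs (n : ℕ) : HS G (natN n : Nm P) := by
  induction n with
  | zero => exact HS.intro (symm_of_fixed fun g => natN_smul g 0) (fun e => e.elim)
  | succ n ih =>
    refine HS.intro (symm_of_fixed fun g => natN_smul g (n + 1)) (fun o => ?_)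
    cases o with
    | none => exact ih
    | some i => exact ih.ch i

theorem omN_hs : HS G (omN : Nm P) :=
  HS.intro (symm_of_fixed fun g => omN_smul g) (fun n => natN_hs n)

end

end Pool.Agent.Helper73.Sym
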