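import Pool.Agent.Helper73.Sym.Force

/-!
Countable generic quotients of the class of hereditarily symmetric names.
-/

namespace Pool.Agent.Helper73.Sym

theorem exists_generic_seq {P : Type} [Preorder P] (p0 : P) (D : ℕ → Set P)
    (hD : ∀ n p, ∃ q ≤ p, q ∈ D n) :
    ∃ g : ℕ → P, g 0 = p0 ∧ Antitone g ∧ ∀ n, g (n + 1) ∈ D n := by
  choose f hf hf' using hD
  let g : ℕ → P := fun n => Nat.rec p0 (fun n p => f n p) n
  refine ⟨g, rfl, ?_, fun n => hf' n (g n)⟩
  exact antitone_nat_of_succ_le fun n => hf n (g n)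

/-- an injective code of formulas -/
def Fml.enc : Fml → ℕ
  | .mem i j => 5 * Nat.pair i j
  | .eq i j => 5 * Nat.pair i j + 1
  | .bot => 2
  | .imp φ ψ => 5 * Nat.pair φ.enc ψ.enc + 3
  | .all φ => 5 * φ.enc + 4

theorem Fml.enc_inj : ∀ φ ψ : Fml, φ.enc = ψ.enc → φ = ψ := by
  have key : ∀ {a b c d : ℕ}, 5 * Nat.pair a b = 5 * Nat.pair c d → a = c ∧ b = d :=
    fun h => Nat.pair_eq_pair.1 (by omega)
  intro φ
  induction φ with
  | mem i j =>
    intro ψ h
    cases ψ with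
    | mem i' j' =>
      obtain ⟨h1, h2⟩ := key h
      rw [h1, h2]
    | _ => simp only [enc] at h; omega
  | eq i j =>
    intro ψ h
    cases ψ with
    | eq i' j' =>
      obtain ⟨h1, h2⟩ := key (Nat.add_right_cancel h)
      rw [h1, h2]
    | _ => simp only [enc] at h; omega
  | bot =>
    intro ψ h
    cases ψ with
    | bot => rfl
    | _ => simp only [enc] at h; omega
  | imp a b iha ihb =>
    intro ψ h
    cases ψ with
    | imp a' b' =>
      obtain ⟨h1, h2⟩ := key (Nat.add_right_cancel h)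
      rw [iha _ h1, ihb _ h2]
    | _ => simp only [enc] at h; omega
  | all a ih =>
    intro ψ h
    cases ψ with
    | all a' =>
      simp only [enc] at h
      rw [ih a' (by omega)]
    | _ => simp only [enc] at h; omega

instance : Countable Fml := ⟨⟨Fml.enc, fun φ ψ h => Fml.enc_inj φ ψ h⟩⟩

section closure

variable {α : Type*} {β : Type*} [Countable β]

/-- stages of the closure of a countable set under countably many finitary functions -/
def stage (W : β → List α → α) (A0 : ℕ → α) : ℕ → Set α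
  | 0 => Set.range A0
  | k + 1 => stage W A0 k ∪ Set.range fun t : β × List (stage W A0 k) =>
      W t.1 (t.2.map Subtype.val)

theorem stage_countable (W : β → List α → α) (A0 : ℕ → α) (k : ℕ) :
    (stage W A0 k).Countable := by
  induction k with
  | zero => exact Set.countable_range _
  | succ k ih =>
    have : Countable (stage W A0 k) := ih.to_subtype
    exact ih.union (Set.countable_range _)

omit [Countable β] in
theorem stage_mono (W : β → List α → α) (A0 : ℕ → α) : Monotone (stage W A0) :=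
  monotone_nat_of_le_succ fun _ => Set.subset_union_left

theorem exists_closed (W : β → List α → α) (A0 : ℕ → α) :
    ∃ U : ℕ → α, (∀ n, ∃ m, U m = A0 n) ∧
      (∀ (b : β) (l : List ℕ), ∃ m, U m = W b (l.map U)) ∧
      ∀ (S : Set α), (∀ n, A0 n ∈ S) → (∀ b l, (∀ x ∈ l, x ∈ S) → W b l ∈ S) → ∀ n, U n ∈ S := by
  have hc : (⋃ k, stage W A0 k).Countable := Set.countable_iUnion (stage_countable W A0)
  have hne : (⋃ k, stage W A0 k).Nonempty := ⟨A0 0, Set.mem_iUnion.2 ⟨0, ⟨0, rfl⟩⟩⟩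
  obtain ⟨U, hU⟩ := hc.exists_eq_range hne
  refine ⟨U, fun n => ?_, fun b l => ?_, fun S h0 h1 n => ?_⟩
  · have : A0 n ∈ ⋃ k, stage W A0 k := Set.mem_iUnion.2 ⟨0, ⟨n, rfl⟩⟩
    rw [hU] at this
    exact this
  · have key : ∀ l : List ℕ, ∃ k, ∀ x ∈ l.map U, x ∈ stage W A0 k := by
      intro l
      induction l with
      | nil => exact ⟨0, by simp⟩
      | cons a l ih =>
        obtain ⟨k, hk⟩ := ih
        have : U a ∈ ⋃ k, stage W A0 k := by rw [hU]; exact ⟨a, rfl⟩
        obtain ⟨k', hk'⟩ := Set.mem_iUnion.1 this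
        refine ⟨max k k', fun x hx => ?_⟩
        rw [List.map_cons, List.mem_cons] at hx
        rcases hx with rfl | hx
        · exact stage_mono W A0 (le_max_right _ _) hk'
        · exact stage_mono W A0 (le_max_left _ _) (hk x hx)
    obtain ⟨k, hk⟩ := key l
    have : W b (l.map U) ∈ ⋃ k, stage W A0 k := by
      refine Set.mem_iUnion.2 ⟨k + 1, Or.inr ⟨(b, (l.map U).attach.map
        fun x => ⟨x.1, hk x.1 x.2⟩), ?_⟩⟩
      simp only [List.map_map]
      congr 1
      conv_rhs => rw [← List.attach_map_subtype_val (l.map U)]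
      rfl
    rw [hU] at this
    exact this
  · have key : ∀ k, stage W A0 k ⊆ S := by
      intro k
      induction k with
      | zero => rintro _ ⟨n, rfl⟩; exact h0 n
      | succ k ih =>
        rintro x (hx | ⟨t, rfl⟩)
        · exact ih hx
        · apply h1
          intro x hx
          obtain ⟨y, _, rfl⟩ := List.mem_map.1 hx
          exact ih y.2
    have : U n ∈ ⋃ k, stage W A0 k := by rw [hU]; exact ⟨n, rfl⟩
    obtain ⟨k, hk⟩ := Set.mem_iUnion.1 this
    exact key k hk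

end closure

/-- a countable set of names together with a sufficiently generic sequence of conditions -/
structure Gen (P G : Type) [PartialOrder P] [OrderTop P] [Group G] [MulAction G P]
    [SymSys P G] where
  U : ℕ → Nm P
  hU : ∀ n, HS G (U n)
  g : ℕ → P
  anti : Antitone g
  dec : ∀ (φ : Fml) (v : ℕ → ℕ), ∃ n, Frc G φ (fun k => U (v k)) (g n) ∨
    Frc G φ.not (fun k => U (v k)) (g n)
  wit : ∀ (φ : Fml) (v : ℕ → ℕ), ∃ n, Frc G (.all φ) (fun k => U (v k)) (g n) ∨
    ∃ m, Frc G φ.not (cons (U m) (fun k => U (v k))) (g n)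
  nat : ∀ n, ∃ m, U m = natN n
  om : ∃ m, U m = omN
  child : ∀ m k : ℕ, ∃ n, (∀ q ≤ g n, ¬ Mm (U k) (U m) q) ∨
    ∃ i : (U m).Ix, g n ≤ (U m).wt i ∧ Eqv (U k) ((U m).ch i) (g n)

section

variable {P G : Type} [PartialOrder P] [OrderTop P] [Group G] [MulAction G P] [SymSys P G]

/-- existence of generic models containing given names, closed under given operations on names
and meeting given dense sets -/
theorem exists_gen_ops [Countable P] (p0 : P) (A1 : ℕ → Nm P) (hA1 : ∀ n, HS G (A1 n))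
    (T : ℕ → Nm P → Set P) (hT : ∀ j x, HS G x → ∀ p, ∃ q ≤ p, q ∈ T j x)
    (V : ℕ → List (Nm P) → Nm P) (hV : ∀ b l, (∀ x ∈ l, HS G x) → HS G (V b l)) :
    ∃ D : Gen P G, D.g 0 = p0 ∧ (∀ n, ∃ m, D.U m = A1 n) ∧
      (∀ j m, ∃ n, D.g n ∈ T j (D.U m)) ∧ ∀ (b : ℕ) (l : List ℕ), ∃ m, D.U m = V b (l.map D.U) := by
  classical
  -- add the names of the natural numbers
  obtain ⟨A0, hA0, hA01, hA0n, hA0o⟩ : ∃ A0 : ℕ → Nm P, (∀ n, HS G (A0 n)) ∧
      (∀ n, ∃ m, A0 m = A1 n) ∧ (∀ n, ∃ m, A0 m = natN n) ∧ ∃ m, A0 m = omN := by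
    refine ⟨fun n => if n % 3 = 0 then A1 (n / 3) else if n % 3 = 1 then natN (n / 3) else omN,
      fun n => ?_, fun n => ⟨3 * n, ?_⟩, fun n => ⟨3 * n + 1, ?_⟩, ⟨2, ?_⟩⟩
    · dsimp only
      split_ifs
      · exact hA1 _
      · exact natN_hs _
      · exact omN_hs
    · have : 3 * n / 3 = n := by omega
      simp [this]
    · have h1 : (3 * n + 1) % 3 = 1 := by omega
      have h2 : (3 * n + 1) / 3 = n := by omega
      simp [h1, h2]
    · simp
  -- witness function
  have hW : ∀ (b : Fml × P) (l : List (Nm P)), ∃ x : Nm P, HS G x ∧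
      (¬ Frc G (.all b.1) (fun n => l.getD n (A0 0)) b.2 →
        ¬ Frc G b.1 (cons x (fun n => l.getD n (A0 0))) b.2) := by
    intro b l
    by_cases h : Frc G (.all b.1) (fun n => l.getD n (A0 0)) b.2
    · exact ⟨A0 0, hA0 0, fun h' => absurd h h'⟩
    · have h' := h
      rw [frc_all] at h'
      push Not at h'
      obtain ⟨x, hx, h1⟩ := h'
      exact ⟨x, hx, fun _ => h1⟩
  choose W hW1 hW2 using hW
  obtain ⟨U, hU0, hUW', hUS⟩ := exists_closed (β := (Fml × P) ⊕ ℕ)
    (fun b l => match b with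
      | .inl b => W b l
      | .inr b => V b l) A0
  have hUW : ∀ (b : Fml × P) (l : List ℕ), ∃ m, U m = W b (l.map U) := fun b l => hUW' (.inl b) l
  have hUV : ∀ (b : ℕ) (l : List ℕ), ∃ m, U m = V b (l.map U) := fun b l => hUW' (.inr b) l
  have hU : ∀ n, HS G (U n) := hUS {x | HS G x} hA0 (fun b l hl => by
    cases b with
    | inl b => exact hW1 b l
    | inr b => exact hV b l hl)
  obtain ⟨m0, hm0⟩ := hU0 0
  -- tasks
  let val : List ℕ → ℕ → Nm P := fun l n => U (l.getD n m0)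
  have hval : ∀ l : List ℕ, (fun n => (l.map U).getD n (A0 0)) = val l := by
    intro l
    funext n
    simp only [val]
    rw [← hm0, List.getD_map]
  let Task := (Fml × List ℕ) ⊕ ((Fml × List ℕ) ⊕ ((ℕ × ℕ) ⊕ (ℕ × ℕ)))
  let Dn : Task → Set P := fun t => match t with
    | .inl (φ, l) => {p | Frc G φ (val l) p ∨ Frc G φ.not (val l) p}
    | .inr (.inl (φ, l)) => {p | Frc G (.all φ) (val l) p ∨
        ∃ m, Frc G φ.not (cons (U m) (val l)) p}
    | .inr (.inr (.inl (m, k))) => {p | (∀ q ≤ p, ¬ Mm (U k) (U m) q) ∨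
        ∃ i : (U m).Ix, p ≤ (U m).wt i ∧ Eqv (U k) ((U m).ch i) p}
    | .inr (.inr (.inr (j, m))) => T j (U m)
  have hDn : ∀ t p, ∃ q ≤ p, q ∈ Dn t := by
    rintro (⟨φ, l⟩ | ⟨φ, l⟩ | ⟨m, k⟩ | ⟨j, m⟩) p
    · by_cases h : Frc G φ (val l) p
      · exact ⟨p, le_rfl, Or.inl h⟩
      · obtain ⟨q, hq, h1⟩ := exists_frc_not h
        exact ⟨q, hq, Or.inr h1⟩
    · by_cases h : Frc G (.all φ) (val l) p
      · exact ⟨p, le_rfl, Or.inl h⟩
      · obtain ⟨m, hm⟩ := hUW (φ, p) l
        have h1 := hW2 (φ, p) (l.map U)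
        simp only [hval] at h1
        have h2 := h1 h
        rw [← hm] at h2
        obtain ⟨q, hq, h3⟩ := exists_frc_not h2
        exact ⟨q, hq, Or.inr ⟨m, h3⟩⟩
    · by_cases h : ∀ q ≤ p, ¬ Mm (U k) (U m) q
      · exact ⟨p, le_rfl, Or.inl h⟩
      · push Not at h
        obtain ⟨q, hq, h1⟩ := h
        obtain ⟨r, hr, i, hi, h2⟩ := h1 q le_rfl
        exact ⟨r, hr.trans hq, Or.inr ⟨i, hi, h2⟩⟩
    · exact hT j (U m) (hU m) p
  have : Countable Task := inferInstance
  have : Nonempty Task := ⟨.inl (.bot, [])⟩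
  obtain ⟨e, he⟩ := exists_surjective_nat Task
  obtain ⟨g, hg0, hga, hg⟩ := exists_generic_seq p0 (fun n => Dn (e n)) (fun n p => hDn (e n) p)
  have hmeet : ∀ t, ∃ n, g n ∈ Dn t := by
    intro t
    obtain ⟨n, rfl⟩ := he t
    exact ⟨n + 1, hg n⟩
  have hlist : ∀ (N : ℕ) (v : ℕ → ℕ), ∃ l : List ℕ, ∀ n < N, val l n = U (v n) := by
    intro N v
    refine ⟨(List.range N).map v, fun n hn => ?_⟩
    simp only [val]
    rw [List.getD_eq_getElem?_getD, List.getElem?_map, List.getElem?_range hn]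
    rfl
  refine ⟨⟨U, hU, g, hga, ?_, ?_, ?_, ?_, ?_⟩, hg0, ?_, ?_, hUV⟩
  · intro φ v
    obtain ⟨l, hl⟩ := hlist φ.bd v
    obtain ⟨n, hn⟩ := hmeet (.inl (φ, l))
    refine ⟨n, ?_⟩
    rcases hn with hn | hn
    · exact Or.inl ((frc_depends hl).1 hn)
    · right
      refine (frc_depends (fun k hk => hl k ?_)).1 hn
      simpa [Fml.not, Fml.bd] using hk
  · intro φ v
    obtain ⟨l, hl⟩ := hlist φ.bd v
    obtain ⟨n, hn⟩ := hmeet (.inr (.inl (φ, l)))
    refine ⟨n, ?_⟩
    rcases hn with hn | ⟨m, hn⟩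
    · exact Or.inl ((frc_depends (φ := .all φ) hl).1 hn)
    · right
      refine ⟨m, (frc_depends ?_).1 hn⟩
      intro k hk
      cases k with
      | zero => rfl
      | succ k =>
        refine hl k ?_
        simp only [Fml.not, Fml.bd] at hk
        omega
  · intro n
    obtain ⟨m, hm⟩ := hA0n n
    obtain ⟨m', hm'⟩ := hU0 m
    exact ⟨m', hm'.trans hm⟩
  · obtain ⟨m, hm⟩ := hA0o
    obtain ⟨m', hm'⟩ := hU0 m
    exact ⟨m', hm'.trans hm⟩
  · intro m k
    exact hmeet (.inr (.inr (.inl (m, k))))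
  · intro n
    obtain ⟨m, hm⟩ := hA01 n
    obtain ⟨m', hm'⟩ := hU0 m
    exact ⟨m', hm'.trans hm⟩
  · intro j m
    exact hmeet (.inr (.inr (.inr (j, m))))

/-- existence of generic models containing given names and meeting given dense sets -/
theorem exists_gen [Countable P] (p0 : P) (A1 : ℕ → Nm P) (hA1 : ∀ n, HS G (A1 n))
    (T : ℕ → Nm P → Set P) (hT : ∀ j x, HS G x → ∀ p, ∃ q ≤ p, q ∈ T j x) :
    ∃ D : Gen P G, D.g 0 = p0 ∧ (∀ n, ∃ m, D.U m = A1 n) ∧
      ∀ j m, ∃ n, D.g n ∈ T j (D.U m) := by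
  obtain ⟨D, h1, h2, h3, _⟩ := exists_gen_ops p0 A1 hA1 T hT (fun _ _ => natN 0)
    (fun _ _ _ => natN_hs 0)
  exact ⟨D, h1, h2, h3⟩

namespace Gen

variable (D : Gen P G)

def setoid : Setoid ℕ where
  r i j := ∃ n, Eqv (D.U i) (D.U j) (D.g n)
  iseqv := {
    refl := fun i => ⟨0, Eqv.refl _ _⟩
    symm := fun ⟨n, h⟩ => ⟨n, h.symm⟩
    trans := fun ⟨n, h⟩ ⟨m, h'⟩ => ⟨max n m, (h.mono (D.anti (le_max_left _ _))).trans
      (h'.mono (D.anti (le_max_right _ _)))⟩ }

/-- the universe of the generic model -/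
def M : Type := Quotient D.setoid

def el (i : ℕ) : D.M := Quotient.mk D.setoid i

theorem el_surj (x : D.M) : ∃ i, D.el i = x := Quotient.exists_rep x

theorem el_eq {i j : ℕ} : D.el i = D.el j ↔ ∃ n, Eqv (D.U i) (D.U j) (D.g n) :=
  Quotient.eq (r := D.setoid)

instance : Membership D.M D.M where
  mem y x := Quotient.liftOn₂ x y (s₁ := D.setoid) (s₂ := D.setoid)
    (fun i j => ∃ n, Mm (D.U i) (D.U j) (D.g n)) (by
      have key : ∀ i j i' j', (∃ n, Eqv (D.U i) (D.U i') (D.g n)) →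
          (∃ n, Eqv (D.U j) (D.U j') (D.g n)) → (∃ n, Mm (D.U i) (D.U j) (D.g n)) →
          ∃ n, Mm (D.U i') (D.U j') (D.g n) := by
        rintro i j i' j' ⟨n, h⟩ ⟨m, h'⟩ ⟨l, hl⟩
        refine ⟨max n (max m l), ?_⟩
        have h1 := h.mono (D.anti (le_max_left n (max m l)))
        have h2 := h'.mono (D.anti ((le_max_left m l).trans (le_max_right n _)))
        have h3 := hl.mono (D.anti ((le_max_right m l).trans (le_max_right n _)))
        exact Mm.congr_right h2 (Mm.congr_left h1 h3)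
      intro i j i' j' h h'
      apply propext
      constructor
      · exact key i j i' j' h h'
      · exact key i' j' i j (D.setoid.symm h) (D.setoid.symm h'))

theorem el_mem {i j : ℕ} : D.el i ∈ D.el j ↔ ∃ n, Mm (D.U i) (D.U j) (D.g n) := Iff.rfl

/-- the truth lemma -/
theorem truth (φ : Fml) (v : ℕ → ℕ) :
    Sat φ (fun k => D.el (v k)) ↔ ∃ n, Frc G φ (fun k => D.U (v k)) (D.g n) := by
  induction φ generalizing v with
  | mem i j => exact D.el_mem
  | eq i j => exact D.el_eq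
  | bot => exact ⟨fun h => h.elim, fun ⟨_, h⟩ => h.elim⟩
  | imp φ ψ h1 h2 =>
    rw [sat_imp, h1, h2]
    constructor
    · intro h
      obtain ⟨n, hn⟩ := D.dec φ v
      rcases hn with hn | hn
      · obtain ⟨m, hm⟩ := h ⟨n, hn⟩
        exact ⟨m, fun q hq _ => hm.mono hq⟩
      · exact ⟨n, fun q hq hφ => absurd hφ (hn q hq)⟩
    · rintro ⟨n, hn⟩ ⟨m, hm⟩
      exact ⟨max n m, hn _ (D.anti (le_max_left _ _)) (hm.mono (D.anti (le_max_right _ _)))⟩
  | all φ ih =>
    rw [sat_all]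
    constructor
    · intro h
      obtain ⟨n, hn⟩ := D.wit φ v
      rcases hn with hn | ⟨m, hm⟩
      · exact ⟨n, hn⟩
      · exfalso
        have h1 := h (D.el m)
        rw [← comp_cons D.el] at h1
        rw [ih, comp_cons D.U] at h1
        obtain ⟨l, hl⟩ := h1
        exact hm _ (D.anti (le_max_left n l)) (hl.mono (D.anti (le_max_right n l)))
    · rintro ⟨n, hn⟩ x
      obtain ⟨i, rfl⟩ := D.el_surj x
      rw [← comp_cons D.el, ih, comp_cons D.U]
      exact ⟨n, hn _ (D.hU i)⟩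

theorem exists_val (w : ℕ → D.M) : ∃ v : ℕ → ℕ, w = fun k => D.el (v k) := by
  choose v hv using fun k => D.el_surj (w k)
  exact ⟨v, (funext hv).symm⟩

/-- sentences forced by all conditions hold in the model -/
theorem sat_of_frc {φ : Fml} (h : ∀ (v : ℕ → Nm P), (∀ n, HS G (v n)) → ∀ p, Frc G φ v p)
    (w : ℕ → D.M) : Sat φ w := by
  obtain ⟨v, rfl⟩ := D.exists_val w
  exact (D.truth φ v).2 ⟨0, h _ (fun n => D.hU _) _⟩

end Gen

end

end Pool.Agent.Helper73.Sym
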