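import Pool.Agent.Helper73.Sym.Def

/-!
Basic set theory inside a model of ZF.
-/

namespace Pool.Agent.Helper73.Sym

set_option synthInstance.maxSize 2000

section

variable {M : Type*} [Membership M M] [IsZF M]

theorem mext {x y : M} (h : ∀ z : M, z ∈ x ↔ z ∈ y) : x = y := IsZF.ext x y h

theorem DT.of_mem {t : (ℕ → M) → M} {S : M → (ℕ → M) → Prop} (h : ∀ v z, z ∈ t v ↔ S z v)
    (hS : Dfn (fun v => S (v 0) (fun n => v (n + 1)))) : DT t := by
  constructor
  have h2 : Dfn (fun v : ℕ → M => S (v 0) (fun n => v (n + 2))) :=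
    (hS.ren (fun n => if n = 0 then 0 else n + 1)).congr fun v => by simp
  have h1 : Dfn (fun v : ℕ → M => ∀ z, z ∈ v 0 ↔ S z (fun n => v (n + 1))) :=
    Dfn.all (S := fun z v => z ∈ v 0 ↔ S z (fun n => v (n + 1)))
      (h := Dfn.iff (h2 := h2))
  refine h1.congr fun v => ?_
  constructor
  · intro e z; rw [e, h]
  · intro e; exact mext fun z => by rw [e, h]

theorem exists_sep (x : M) (S : M → Prop) [h : Dfn (fun v : ℕ → M => S (v 0))] :
    ∃ y : M, ∀ z : M, z ∈ y ↔ z ∈ x ∧ S z := by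
  obtain ⟨φ, a, ha⟩ := h.out
  obtain ⟨y, hy⟩ := IsZF.separation φ (fun n => mix (fun _ => x) a (n + 1)) x
  refine ⟨y, fun z => ?_⟩
  rw [hy]
  have h1 := ha (cons z (fun _ => x))
  rw [cons_zero] at h1
  rw [h1]
  have e : cons z (fun n => mix (fun _ => x) a (n + 1)) = mix (cons z (fun _ => x)) a := by
    funext n
    rcases n with _ | n
    · rfl
    · simp only [cons_succ, mix]
      split_ifs with h
      · obtain ⟨k, hk⟩ : ∃ k, (n + 1) / 2 = k + 1 := ⟨(n + 1) / 2 - 1, by omega⟩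
        rw [hk]; rfl
      · rfl
  rw [e]

/-- the subset of `x` defined by `S` -/
noncomputable def sep (x : M) (S : M → Prop) [h : Dfn (fun v : ℕ → M => S (v 0))] : M :=
  (exists_sep x S).choose

@[simp] theorem mem_sep (x : M) (S : M → Prop) [h : Dfn (fun v : ℕ → M => S (v 0))] (z : M) :
    z ∈ sep x S ↔ z ∈ x ∧ S z := (exists_sep x S).choose_spec z

theorem exists_img (f : M → M) (x : M) [h : Dfn (fun v : ℕ → M => v 0 = f (v 1))] :
    ∃ y : M, ∀ w : M, w ∈ y ↔ ∃ z : M, z ∈ x ∧ w = f z := by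
  obtain ⟨φ, a, ha⟩ := h.out
  have key : ∀ w z, w = f z ↔ Sat (φ.ren (fun n => if n = 0 then 0 else if n = 2 then 1 else n + 2))
      (cons w (cons z (fun n => mix (fun _ => x) a n))) := by
    intro w z
    rw [sat_ren]
    have h1 := ha (cons w (cons z (fun _ => x)))
    rw [cons_zero, cons_one, cons_zero] at h1
    rw [h1]
    have e : (fun n => cons w (cons z (fun n => mix (fun _ => x) a n))
        (if n = 0 then 0 else if n = 2 then 1 else n + 2)) =
        mix (cons w (cons z (fun _ => x))) a := by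
      funext n
      rcases n with _ | _ | _ | n
      · rfl
      · rfl
      · rfl
      · rw [if_neg (by omega), if_neg (by omega)]
        simp only [cons_succ, mix]
        split_ifs with h
        · obtain ⟨k, hk⟩ : ∃ k, (n + 1 + 1 + 1) / 2 = k + 2 := ⟨(n + 3) / 2 - 2, by omega⟩
          rw [hk]; rfl
        · rfl
    rw [e]
  obtain ⟨y, hy⟩ := IsZF.replacement
    (φ.ren (fun n => if n = 0 then 0 else if n = 2 then 1 else n + 2))
    (fun n => mix (fun _ => x) a n) x (fun z _ => ⟨f z, (key _ _).1 rfl, fun w hw =>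
      (key _ _).2 hw⟩)
  refine ⟨y, fun w => ?_⟩
  rw [hy]
  exact exists_congr fun z => and_congr_right fun _ => (key _ _).symm

/-- the image of `x` under a definable operation -/
noncomputable def img (f : M → M) (x : M) [h : Dfn (fun v : ℕ → M => v 0 = f (v 1))] : M :=
  (exists_img f x).choose

@[simp] theorem mem_img (f : M → M) (x : M) [h : Dfn (fun v : ℕ → M => v 0 = f (v 1))] (w : M) :
    w ∈ img f x ↔ ∃ z : M, z ∈ x ∧ w = f z := (exists_img f x).choose_spec w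

/-! ### basic operations -/

def Sub (x y : M) : Prop := ∀ z : M, z ∈ x → z ∈ y

instance Dfn.sub {t u : (ℕ → M) → M} [ht : DT t] [hu : DT u] :
    Dfn (fun v => Sub (t v) (u v)) :=
  Dfn.rel2 (R := Sub) (inferInstanceAs (Dfn (fun v : ℕ → M => ∀ z, z ∈ v 0 → z ∈ v 1))) ht hu

theorem sub_antisymm {x y : M} (h1 : Sub x y) (h2 : Sub y x) : x = y :=
  mext fun z => ⟨h1 z, h2 z⟩

noncomputable def upair (x y : M) : M := (IsZF.pair x y).choose
@[simp] theorem mem_upair (x y w : M) : w ∈ upair x y ↔ w = x ∨ w = y :=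
  (IsZF.pair x y).choose_spec w

noncomputable def sUn (x : M) : M := (IsZF.union x).choose
@[simp] theorem mem_sUn (x z : M) : z ∈ sUn x ↔ ∃ w : M, w ∈ x ∧ z ∈ w :=
  (IsZF.union x).choose_spec z

noncomputable def pw (x : M) : M := (IsZF.power x).choose
@[simp] theorem mem_pw (x z : M) : z ∈ pw x ↔ Sub z x := (IsZF.power x).choose_spec z

noncomputable def emp : M := sep (Classical.choice (nonempty_of_zf M)) (fun _ => False)
@[simp] theorem mem_emp (z : M) : ¬ z ∈ (emp : M) := by simp [emp]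

noncomputable def un2 (x y : M) : M := sUn (upair x y)
@[simp] theorem mem_un2 (x y z : M) : z ∈ un2 x y ↔ z ∈ x ∨ z ∈ y := by
  simp [un2]

noncomputable def op (x y : M) : M := upair (upair x x) (upair x y)

theorem upair_eq {x y z w : M} (h : upair x y = upair z w) :
    (x = z ∧ y = w) ∨ (x = w ∧ y = z) := by
  have h1 : x ∈ upair z w := by rw [← h]; simp
  have h2 : y ∈ upair z w := by rw [← h]; simp
  have h3 : z ∈ upair x y := by rw [h]; simp
  have h4 : w ∈ upair x y := by rw [h]; simp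
  rw [mem_upair] at h1 h2 h3 h4
  grind

theorem op_inj {x y z w : M} : op x y = op z w ↔ x = z ∧ y = w := by
  constructor
  · intro h
    have h1 := upair_eq h
    have key : ∀ {a b c : M}, upair a a = upair b c → a = b ∧ a = c := by
      intro a b c h
      rcases upair_eq h with ⟨h1, h2⟩ | ⟨h1, h2⟩
      · exact ⟨h1, h2⟩
      · exact ⟨h2, h1⟩
    rcases h1 with ⟨h1, h2⟩ | ⟨h1, h2⟩
    · have hx := (key h1).1
      subst hx
      rcases upair_eq h2 with ⟨_, h4⟩ | ⟨h3, h4⟩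
      · exact ⟨rfl, h4⟩
      · exact ⟨rfl, h4.trans h3⟩
    · obtain ⟨h3, h4⟩ := key h1
      obtain ⟨h5, h6⟩ := key h2.symm
      exact ⟨h3, by rw [← h6, h5, ← h3, h4] at *⟩
  · rintro ⟨rfl, rfl⟩; rfl

instance DT.upair' {t u : (ℕ → M) → M} [ht : DT t] [hu : DT u] :
    DT (fun v => upair (t v) (u v)) :=
  DT.app2 (Dfn.congr (S := fun v : ℕ → M => ∀ z, z ∈ v 0 ↔ z = v 1 ∨ z = v 2) inferInstance
    fun v => ⟨fun h z => by rw [h, mem_upair], fun h => mext fun z => by rw [h, mem_upair]⟩) ht hu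

instance DT.sUn' {t : (ℕ → M) → M} [ht : DT t] : DT (fun v => sUn (t v)) :=
  DT.app1 (Dfn.congr (S := fun v : ℕ → M => ∀ z, z ∈ v 0 ↔ ∃ w, w ∈ v 1 ∧ z ∈ w) inferInstance
    fun v => ⟨fun h z => by rw [h, mem_sUn], fun h => mext fun z => by rw [h, mem_sUn]⟩) ht

instance DT.pw' {t : (ℕ → M) → M} [ht : DT t] : DT (fun v => pw (t v)) :=
  DT.app1 (Dfn.congr (S := fun v : ℕ → M => ∀ z, z ∈ v 0 ↔ Sub z (v 1)) inferInstance
    fun v => ⟨fun h z => by rw [h, mem_pw], fun h => mext fun z => by rw [h, mem_pw]⟩) ht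

instance DT.un2' {t u : (ℕ → M) → M} [ht : DT t] [hu : DT u] :
    DT (fun v => un2 (t v) (u v)) :=
  inferInstanceAs (DT (fun v => sUn (upair (t v) (u v))))

instance DT.op' {t u : (ℕ → M) → M} [ht : DT t] [hu : DT u] :
    DT (fun v => op (t v) (u v)) :=
  inferInstanceAs (DT (fun v => upair (upair (t v) (t v)) (upair (t v) (u v))))

/-- intersection -/
noncomputable def in2 (x y : M) : M := sep x (fun z => z ∈ y)
@[simp] theorem mem_in2 (x y z : M) : z ∈ in2 x y ↔ z ∈ x ∧ z ∈ y := by simp [in2]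

/-- difference -/
noncomputable def df (x y : M) : M := sep x (fun z => ¬ z ∈ y)
@[simp] theorem mem_df (x y z : M) : z ∈ df x y ↔ z ∈ x ∧ ¬ z ∈ y := by simp [df]

instance DT.in2' {t u : (ℕ → M) → M} [ht : DT t] [hu : DT u] :
    DT (fun v => in2 (t v) (u v)) :=
  DT.app2 (Dfn.congr (S := fun v : ℕ → M => ∀ z, z ∈ v 0 ↔ z ∈ v 1 ∧ z ∈ v 2) inferInstance
    fun v => ⟨fun h z => by rw [h, mem_in2], fun h => mext fun z => by rw [h, mem_in2]⟩) ht hu

instance DT.df' {t u : (ℕ → M) → M} [ht : DT t] [hu : DT u] :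
    DT (fun v => df (t v) (u v)) :=
  DT.app2 (Dfn.congr (S := fun v : ℕ → M => ∀ z, z ∈ v 0 ↔ z ∈ v 1 ∧ ¬ z ∈ v 2) inferInstance
    fun v => ⟨fun h z => by rw [h, mem_df], fun h => mext fun z => by rw [h, mem_df]⟩) ht hu

theorem op_mem_pw {x y a b : M} (ha : a ∈ x) (hb : b ∈ y) : op a b ∈ pw (pw (un2 x y)) := by
  simp only [op, mem_pw, Sub, mem_upair, mem_un2]
  rintro z (rfl | rfl) w hw
  · simp only [mem_upair, or_self] at hw
    rw [hw]; exact Or.inl ha
  · simp only [mem_upair] at hw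
    rcases hw with rfl | rfl
    · exact Or.inl ha
    · exact Or.inr hb

/-- cartesian product -/
noncomputable def prod (x y : M) : M :=
  sep (pw (pw (un2 x y))) (fun z => ∃ a, a ∈ x ∧ ∃ b, b ∈ y ∧ z = op a b)

theorem mem_prod (x y z : M) : z ∈ prod x y ↔ ∃ a, a ∈ x ∧ ∃ b, b ∈ y ∧ z = op a b := by
  rw [prod, mem_sep]
  constructor
  · exact fun h => h.2
  · rintro ⟨a, ha, b, hb, rfl⟩
    exact ⟨op_mem_pw ha hb, a, ha, b, hb, rfl⟩

@[simp] theorem op_mem_prod (x y a b : M) : op a b ∈ prod x y ↔ a ∈ x ∧ b ∈ y := by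
  rw [mem_prod]
  constructor
  · rintro ⟨a', ha, b', hb, h⟩
    rw [op_inj] at h
    rw [h.1, h.2]; exact ⟨ha, hb⟩
  · rintro ⟨ha, hb⟩
    exact ⟨a, ha, b, hb, rfl⟩

instance DT.prod' {t u : (ℕ → M) → M} [ht : DT t] [hu : DT u] :
    DT (fun v => prod (t v) (u v)) :=
  DT.app2 (Dfn.congr (S := fun v : ℕ → M => ∀ z, z ∈ v 0 ↔
      ∃ a, a ∈ v 1 ∧ ∃ b, b ∈ v 2 ∧ z = op a b) inferInstance
    fun v => ⟨fun h z => by rw [h, mem_prod], fun h => mext fun z => by rw [h, mem_prod]⟩) ht hu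

/-- a relation from `x` to `y` given by a definable predicate -/
noncomputable def rel (x y : M) (R : M → M → Prop)
    [h : Dfn (fun v : ℕ → M => ∃ a, a ∈ x ∧ ∃ b, b ∈ y ∧ v 0 = op a b ∧ R a b)] : M :=
  sep (prod x y) (fun z => ∃ a, a ∈ x ∧ ∃ b, b ∈ y ∧ z = op a b ∧ R a b)

theorem op_mem_rel (x y : M) (R : M → M → Prop)
    [h : Dfn (fun v : ℕ → M => ∃ a, a ∈ x ∧ ∃ b, b ∈ y ∧ v 0 = op a b ∧ R a b)] (a b : M) :
    op a b ∈ rel x y R ↔ a ∈ x ∧ b ∈ y ∧ R a b := by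
  rw [rel, mem_sep, op_mem_prod]
  constructor
  · rintro ⟨_, a', ha, b', hb, h, hR⟩
    rw [op_inj] at h
    rw [h.1, h.2]; exact ⟨ha, hb, hR⟩
  · rintro ⟨ha, hb, hR⟩
    exact ⟨⟨ha, hb⟩, a, ha, b, hb, rfl, hR⟩

theorem mem_rel_of {x y : M} {R : M → M → Prop}
    [h : Dfn (fun v : ℕ → M => ∃ a, a ∈ x ∧ ∃ b, b ∈ y ∧ v 0 = op a b ∧ R a b)] {z : M}
    (hz : z ∈ rel x y R) : ∃ a, a ∈ x ∧ ∃ b, b ∈ y ∧ z = op a b ∧ R a b := by
  rw [rel, mem_sep] at hz
  exact hz.2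

/-! ### functions -/

/-- `f` is a function from `x` to `y` -/
def Fn (f x y : M) : Prop :=
  (∀ z : M, z ∈ f → ∃ a, a ∈ x ∧ ∃ b, b ∈ y ∧ z = op a b) ∧
  ∀ a, a ∈ x → ∃ b, op a b ∈ f ∧ ∀ c, op a c ∈ f → c = b

instance Dfn.fn {t u w : (ℕ → M) → M} [ht : DT t] [hu : DT u] [hw : DT w] :
    Dfn (fun v => Fn (t v) (u v) (w v)) :=
  Dfn.rel3 (R := Fn) (inferInstanceAs (Dfn (fun v : ℕ → M =>
    (∀ z : M, z ∈ v 0 → ∃ a, a ∈ v 1 ∧ ∃ b, b ∈ v 2 ∧ z = op a b) ∧
    ∀ a, a ∈ v 1 → ∃ b, op a b ∈ v 0 ∧ ∀ c, op a c ∈ v 0 → c = b))) ht hu hw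

def Val (f a b : M) : Prop := op a b ∈ f ∧ ∀ c, op a c ∈ f → c = b

instance Dfn.val {t u w : (ℕ → M) → M} [ht : DT t] [hu : DT u] [hw : DT w] :
    Dfn (fun v => Val (t v) (u v) (w v)) :=
  Dfn.rel3 (R := Val) (inferInstanceAs (Dfn (fun v : ℕ → M =>
    op (v 1) (v 2) ∈ v 0 ∧ ∀ c, op (v 1) c ∈ v 0 → c = v 2))) ht hu hw

open Classical in
/-- the value of the function `f` at `a` -/
noncomputable def ap (f a : M) : M :=
  if h : ∃ b : M, Val f a b then h.choose else emp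

theorem ap_spec {f x y a : M} (h : Fn f x y) (ha : a ∈ x) : op a (ap f a) ∈ f := by
  have h1 : ∃ b : M, Val f a b := h.2 a ha
  unfold ap
  rw [dif_pos h1]
  exact h1.choose_spec.1

theorem ap_mem {f x y a : M} (h : Fn f x y) (ha : a ∈ x) : ap f a ∈ y := by
  obtain ⟨a', _, b', hb, h1⟩ := h.1 _ (ap_spec h ha)
  rw [op_inj] at h1
  rw [h1.2]; exact hb

theorem ap_eq {f x y a b : M} (h : Fn f x y) (hab : op a b ∈ f) : ap f a = b := by
  obtain ⟨a', ha, b', hb, h1⟩ := h.1 _ hab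
  rw [op_inj] at h1
  obtain ⟨rfl, rfl⟩ := h1
  obtain ⟨c, hc, hu⟩ := h.2 a ha
  rw [hu _ hab, hu _ (ap_spec h ha)]

theorem op_mem_iff {f x y a b : M} (h : Fn f x y) : op a b ∈ f ↔ a ∈ x ∧ b = ap f a := by
  constructor
  · intro hab
    refine ⟨?_, (ap_eq h hab).symm⟩
    obtain ⟨a', ha, b', hb, h1⟩ := h.1 _ hab
    rw [op_inj] at h1
    rw [h1.1]; exact ha
  · rintro ⟨ha, rfl⟩
    exact ap_spec h ha

theorem fn_ext {f g x y z : M} (hf : Fn f x y) (hg : Fn g x z)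
    (h : ∀ a, a ∈ x → ap f a = ap g a) : f = g := by
  apply mext
  intro w
  constructor
  · intro hw
    obtain ⟨a, ha, b, hb, rfl⟩ := hf.1 w hw
    rw [op_mem_iff hf] at hw
    rw [op_mem_iff hg, ← h a ha]
    exact hw
  · intro hw
    obtain ⟨a, ha, b, hb, rfl⟩ := hg.1 w hw
    rw [op_mem_iff hg] at hw
    rw [op_mem_iff hf, h a ha]
    exact hw

instance DT.ap' {t u : (ℕ → M) → M} [ht : DT t] [hu : DT u] :
    DT (fun v => ap (t v) (u v)) := by
  refine DT.app2 (Dfn.congr (S := fun v : ℕ → M =>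
      ((∃ b, Val (v 1) (v 2) b) → Val (v 1) (v 2) (v 0)) ∧
      (¬ (∃ b, Val (v 1) (v 2) b) → v 0 = emp)) inferInstance
    fun v => ?_) ht hu
  unfold ap
  constructor
  · intro h
    constructor
    · intro h1
      rw [dif_pos h1] at h
      rw [h]
      exact h1.choose_spec
    · intro h1
      rw [dif_neg h1] at h
      exact h
  · rintro ⟨h1, h2⟩
    by_cases h : ∃ b, Val (v 1) (v 2) b
    · rw [dif_pos h]
      exact h.choose_spec.2 _ (h1 h).1
    · rw [dif_neg h]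
      exact h2 h

/-- the function on `x` given by a definable operation -/
noncomputable def lam (x : M) (f : M → M) [h : Dfn (fun v : ℕ → M => v 0 = f (v 1))] : M :=
  img (fun a => op a (f a)) x (h := by
    have h1 : DT (fun v : ℕ → M => f (v 1)) := DT.app1 h (DT.var 1)
    exact Dfn.eq (ht := DT.var 0) (hu := DT.op' (ht := DT.var 1) (hu := h1)))

theorem op_mem_lam (x : M) (f : M → M) [h : Dfn (fun v : ℕ → M => v 0 = f (v 1))] (a b : M) :
    op a b ∈ lam x f ↔ a ∈ x ∧ b = f a := by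
  rw [lam, mem_img]
  constructor
  · rintro ⟨c, hc, h1⟩
    rw [op_inj] at h1
    rw [h1.1]; exact ⟨hc, h1.2⟩
  · rintro ⟨ha, rfl⟩
    exact ⟨a, ha, rfl⟩

theorem lam_fn {x y : M} {f : M → M} [h : Dfn (fun v : ℕ → M => v 0 = f (v 1))]
    (hf : ∀ a, a ∈ x → f a ∈ y) : Fn (lam x f) x y := by
  constructor
  · intro z hz
    rw [lam, mem_img] at hz
    obtain ⟨a, ha, rfl⟩ := hz
    exact ⟨a, ha, f a, hf a ha, rfl⟩
  · intro a ha
    refine ⟨f a, (op_mem_lam x f a _).2 ⟨ha, rfl⟩, fun c hc => ((op_mem_lam x f a c).1 hc).2⟩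

theorem ap_lam {x : M} {f : M → M} [h : Dfn (fun v : ℕ → M => v 0 = f (v 1))] {a : M}
    (ha : a ∈ x) : ap (lam x f) a = f a := by
  have h1 : Fn (lam x f) x (img f x) := lam_fn fun b hb => (mem_img f x _).2 ⟨b, hb, rfl⟩
  exact ap_eq h1 ((op_mem_lam x f a _).2 ⟨ha, rfl⟩)

end

end Pool.Agent.Helper73.Sym
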