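import Pool.Agent.Helper73.Sym.ZF

/-!
Names over a forcing order, forcing of equality and membership.
-/

namespace Pool.Agent.Helper73.Sym

/-- names over `P` -/
inductive Nm (P : Type) : Type 1
  | mk (ι : Type) (τ : ι → Nm P) (c : ι → P) : Nm P

namespace Nm

variable {P : Type}

def Ix : Nm P → Type
  | mk ι _ _ => ι

def ch : (x : Nm P) → x.Ix → Nm P
  | mk _ τ _ => τ

def wt : (x : Nm P) → x.Ix → P
  | mk _ _ c => c

theorem eta : (x : Nm P) → mk x.Ix x.ch x.wt = x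
  | mk _ _ _ => rfl

end Nm

section

variable {P : Type} [Preorder P]

/-- `Eqv x y p`: the condition `p` forces `x = y` -/
def Eqv : Nm P → Nm P → P → Prop
  | .mk _ τ c, .mk _ σ d => fun p =>
    (∀ i, ∀ q ≤ p, q ≤ c i → ∃ r ≤ q, ∃ k, r ≤ d k ∧ Eqv (τ i) (σ k) r) ∧
    (∀ k, ∀ q ≤ p, q ≤ d k → ∃ r ≤ q, ∃ i, r ≤ c i ∧ Eqv (τ i) (σ k) r)

/-- `Mm x y p`: the condition `p` forces `x ∈ y` -/
def Mm (x y : Nm P) (p : P) : Prop :=
  ∀ q ≤ p, ∃ r ≤ q, ∃ k : y.Ix, r ≤ y.wt k ∧ Eqv x (y.ch k) r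

theorem eqv_iff (x y : Nm P) (p : P) : Eqv x y p ↔
    (∀ i : x.Ix, ∀ q ≤ p, q ≤ x.wt i → ∃ r ≤ q, ∃ k : y.Ix, r ≤ y.wt k ∧
      Eqv (x.ch i) (y.ch k) r) ∧
    (∀ k : y.Ix, ∀ q ≤ p, q ≤ y.wt k → ∃ r ≤ q, ∃ i : x.Ix, r ≤ x.wt i ∧
      Eqv (x.ch i) (y.ch k) r) := by
  cases x; cases y
  rfl

theorem Eqv.mono {x y : Nm P} {p q : P} (h : Eqv x y p) (hq : q ≤ p) : Eqv x y q := by
  rw [eqv_iff] at h ⊢
  exact ⟨fun i r hr => h.1 i r (hr.trans hq), fun k r hr => h.2 k r (hr.trans hq)⟩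

theorem Eqv.dense {x y : Nm P} {p : P} (h : ∀ q ≤ p, ∃ r ≤ q, Eqv x y r) : Eqv x y p := by
  rw [eqv_iff]
  constructor
  · intro i q hq hqc
    obtain ⟨r, hr, h1⟩ := h q hq
    rw [eqv_iff] at h1
    obtain ⟨r', hr', h2⟩ := h1.1 i r le_rfl (hr.trans hqc)
    exact ⟨r', hr'.trans hr, h2⟩
  · intro k q hq hqc
    obtain ⟨r, hr, h1⟩ := h q hq
    rw [eqv_iff] at h1
    obtain ⟨r', hr', h2⟩ := h1.2 k r le_rfl (hr.trans hqc)
    exact ⟨r', hr'.trans hr, h2⟩

theorem Eqv.refl (x : Nm P) (p : P) : Eqv x x p := by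
  induction x generalizing p with
  | mk ι τ c ih =>
    exact ⟨fun i q _ hqc => ⟨q, le_rfl, i, hqc, ih i q⟩,
      fun i q _ hqc => ⟨q, le_rfl, i, hqc, ih i q⟩⟩

theorem Eqv.symm {x y : Nm P} {p : P} (h : Eqv x y p) : Eqv y x p := by
  induction x generalizing y p with
  | mk ι τ c ih =>
    cases y with
    | mk κ σ d =>
      constructor
      · intro k q hq hqc
        obtain ⟨r, hr, i, hi, h1⟩ := h.2 k q hq hqc
        exact ⟨r, hr, i, hi, ih i h1⟩
      · intro i q hq hqc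
        obtain ⟨r, hr, k, hk, h1⟩ := h.1 i q hq hqc
        exact ⟨r, hr, k, hk, ih i h1⟩

theorem Eqv.trans {x y z : Nm P} {p : P} (h : Eqv x y p) (h' : Eqv y z p) : Eqv x z p := by
  induction x generalizing y z p with
  | mk ι τ c ih =>
    rw [eqv_iff] at h h' ⊢
    constructor
    · intro i q hq hqc
      obtain ⟨r, hr, k, hk, h1⟩ := h.1 i q hq hqc
      obtain ⟨r', hr', l, hl, h2⟩ := h'.1 k r (hr.trans hq) hk
      exact ⟨r', hr'.trans hr, l, hl, ih i (h1.mono hr') h2⟩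
    · intro l q hq hqc
      obtain ⟨r, hr, k, hk, h1⟩ := h'.2 l q hq hqc
      obtain ⟨r', hr', i, hi, h2⟩ := h.2 k r (hr.trans hq) hk
      exact ⟨r', hr'.trans hr, i, hi, ih i h2 (h1.mono hr')⟩

theorem Mm.mono {x y : Nm P} {p q : P} (h : Mm x y p) (hq : q ≤ p) : Mm x y q :=
  fun r hr => h r (hr.trans hq)

theorem Mm.dense {x y : Nm P} {p : P} (h : ∀ q ≤ p, ∃ r ≤ q, Mm x y r) : Mm x y p := by
  intro q hq
  obtain ⟨r, hr, h1⟩ := h q hq
  obtain ⟨r', hr', h2⟩ := h1 r le_rfl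
  exact ⟨r', hr'.trans hr, h2⟩

theorem Mm.child (x : Nm P) (i : x.Ix) {p : P} (h : p ≤ x.wt i) : Mm (x.ch i) x p :=
  fun q hq => ⟨q, le_rfl, i, hq.trans h, Eqv.refl _ _⟩

theorem Mm.congr_left {x y z : Nm P} {p : P} (h : Eqv x y p) (hm : Mm x z p) : Mm y z p := by
  intro q hq
  obtain ⟨r, hr, k, hk, h1⟩ := hm q hq
  exact ⟨r, hr, k, hk, (h.mono (hr.trans hq)).symm.trans h1⟩

theorem Mm.congr_right {x y z : Nm P} {p : P} (h : Eqv y z p) (hm : Mm x y p) :
    Mm x z p := by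
  intro q hq
  obtain ⟨r, hr, k, hk, h1⟩ := hm q hq
  rw [eqv_iff] at h
  obtain ⟨r', hr', l, hl, h2⟩ := h.1 k r (hr.trans hq) hk
  exact ⟨r', hr'.trans hr, l, hl, (h1.mono hr').trans h2⟩

/-- extensionality for names: it is enough to look at the children -/
theorem eqv_iff_children (x y : Nm P) (p : P) : Eqv x y p ↔
    (∀ i : x.Ix, ∀ q ≤ p, q ≤ x.wt i → Mm (x.ch i) y q) ∧
    (∀ k : y.Ix, ∀ q ≤ p, q ≤ y.wt k → Mm (y.ch k) x q) := by
  constructor
  · intro h
    exact ⟨fun i q hq hqc => Mm.congr_right (h.mono hq) (Mm.child x i hqc),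
      fun k q hq hqc => Mm.congr_right (h.mono hq).symm (Mm.child y k hqc)⟩
  · intro h
    rw [eqv_iff]
    constructor
    · intro i q hq hqc
      exact h.1 i q hq hqc q le_rfl
    · intro k q hq hqc
      obtain ⟨r, hr, i, hi, h1⟩ := h.2 k q hq hqc q le_rfl
      exact ⟨r, hr, i, hi, h1.symm⟩

end

/-! ### automorphisms -/

section

variable {P G : Type} [Group G] [MulAction G P]

/-- action of an automorphism on a name -/
def Nm.act (g : G) : Nm P → Nm P
  | .mk ι τ c => .mk ι (fun i => (τ i).act g) (fun i => g • c i)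

instance : SMul G (Nm P) := ⟨Nm.act⟩

theorem Nm.smul_mk (g : G) (ι : Type) (τ : ι → Nm P) (c : ι → P) :
    g • (Nm.mk ι τ c) = Nm.mk ι (fun i => g • τ i) (fun i => g • c i) := rfl

instance : MulAction G (Nm P) where
  one_smul x := by
    induction x with
    | mk ι τ c ih => rw [Nm.smul_mk]; simp only [ih, one_smul]
  mul_smul g h x := by
    induction x with
    | mk ι τ c ih => simp only [Nm.smul_mk, ih, mul_smul]

end

/-- A symmetric system: a forcing order `P`, a group `G` acting on `P` by automorphisms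
and a normal filter of subgroups of `G`. -/
class SymSys (P G : Type) [PartialOrder P] [OrderTop P] [Group G] [MulAction G P] where
  smul_mono : ∀ (g : G) {p q : P}, p ≤ q → g • p ≤ g • q
  filt : Set (Subgroup G)
  top_mem : ⊤ ∈ filt
  up : ∀ {H K : Subgroup G}, H ∈ filt → H ≤ K → K ∈ filt
  inter : ∀ {H K : Subgroup G}, H ∈ filt → K ∈ filt → H ⊓ K ∈ filt
  conj : ∀ (g : G) {H : Subgroup G}, H ∈ filt → ∃ K ∈ filt, ∀ k ∈ K, g⁻¹ * k * g ∈ H

section

variable {P G : Type} [PartialOrder P] [OrderTop P] [Group G] [MulAction G P] [SymSys P G]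

theorem smul_le_iff (G : Type) [Group G] [MulAction G P] [SymSys P G] (g : G) {p q : P} :
    g • p ≤ g • q ↔ p ≤ q := by
  constructor
  · intro h
    have := SymSys.smul_mono (g⁻¹) h
    simpa using this
  · exact SymSys.smul_mono g

theorem smul_top' (G : Type) [Group G] [MulAction G P] [SymSys P G] (g : G) :
    g • (⊤ : P) = ⊤ := by
  apply top_le_iff.1
  have := SymSys.smul_mono g (le_top : g⁻¹ • (⊤ : P) ≤ ⊤)
  simpa using this

theorem smul_le_iff' (g : G) {p q : P} : q ≤ g • p ↔ g⁻¹ • q ≤ p := by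
  rw [← smul_le_iff G g⁻¹, inv_smul_smul]

theorem eqv_smul (g : G) {x y : Nm P} {p : P} :
    Eqv (g • x) (g • y) (g • p) ↔ Eqv x y p := by
  have key : ∀ (g : G) (x y : Nm P) (p : P), Eqv x y p → Eqv (g • x) (g • y) (g • p) := by
    intro g x
    induction x with
    | mk ι τ c ih =>
      intro y p h
      cases y with
      | mk κ σ d =>
        constructor
        · intro i q hq hqc
          obtain ⟨r, hr, k, hk, h1⟩ := h.1 i (g⁻¹ • q) ((smul_le_iff' g).1 hq)
            ((smul_le_iff' g).1 hqc)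
          refine ⟨g • r, ?_, k, SymSys.smul_mono g hk, ih i _ _ h1⟩
          have := SymSys.smul_mono g hr
          simpa using this
        · intro k q hq hqc
          obtain ⟨r, hr, i, hi, h1⟩ := h.2 k (g⁻¹ • q) ((smul_le_iff' g).1 hq)
            ((smul_le_iff' g).1 hqc)
          refine ⟨g • r, ?_, i, SymSys.smul_mono g hi, ih i _ _ h1⟩
          have := SymSys.smul_mono g hr
          simpa using this
  constructor
  · intro h
    have := key g⁻¹ _ _ _ h
    simpa using this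
  · exact key g x y p

theorem mm_smul (g : G) {x y : Nm P} {p : P} : Mm (g • x) (g • y) (g • p) ↔ Mm x y p := by
  have key : ∀ (g : G) (x y : Nm P) (p : P), Mm x y p → Mm (g • x) (g • y) (g • p) := by
    intro g x y p h
    cases y with
    | mk κ σ d =>
      intro q hq
      obtain ⟨r, hr, k, hk, h1⟩ := h (g⁻¹ • q) ((smul_le_iff' g).1 hq)
      refine ⟨g • r, ?_, k, SymSys.smul_mono g hk, (eqv_smul g).2 h1⟩
      have := SymSys.smul_mono g hr
      simpa using this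
  constructor
  · intro h
    have := key g⁻¹ _ _ _ h
    simpa using this
  · exact key g x y p

/-- `x` is symmetric: a group in the filter fixes it -/
def Symm (G : Type) [Group G] [MulAction G P] [SymSys P G] (x : Nm P) : Prop :=
  ∃ H ∈ SymSys.filt (P := P) (G := G), ∀ g ∈ H, ∀ p, Eqv (g • x) x p

/-- hereditarily symmetric names -/
def HS (G : Type) [Group G] [MulAction G P] [SymSys P G] : Nm P → Prop
  | .mk ι τ c => Symm G (.mk ι τ c) ∧ ∀ i, HS G (τ i)

theorem HS.symm' {x : Nm P} (h : HS G x) : Symm G x := by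
  cases x; exact h.1

theorem HS.ch {x : Nm P} (h : HS G x) (i : x.Ix) : HS G (x.ch i) := by
  cases x; exact h.2 i

theorem HS.intro {x : Nm P} (h : Symm G x) (h' : ∀ i : x.Ix, HS G (x.ch i)) : HS G x := by
  cases x; exact ⟨h, h'⟩

theorem Symm.smul (g : G) {x : Nm P} (h : Symm G x) : Symm G (g • x) := by
  obtain ⟨H, hH, h⟩ := h
  obtain ⟨K, hK, hc⟩ := SymSys.conj (P := P) g hH
  refine ⟨K, hK, fun k hk p => ?_⟩
  have h1 := h _ (hc k hk) (g⁻¹ • p)
  have h2 := (eqv_smul g).2 h1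
  simpa [smul_smul, mul_assoc] using h2

theorem HS.smul (g : G) {x : Nm P} (h : HS G x) : HS G (g • x) := by
  induction x with
  | mk ι τ c ih => exact ⟨h.1.smul g, fun i => ih i (h.2 i)⟩

theorem HS.smul_iff (g : G) {x : Nm P} : HS G (g • x) ↔ HS G x := by
  constructor
  · intro h
    have := h.smul g⁻¹
    simpa using this
  · exact HS.smul g

end

end Pool.Agent.Helper73.Sym
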