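import Mathlib

/-!
Formulas of the language of set theory, satisfaction, and models of ZF.
-/

namespace Pool.Agent.Helper73.Sym

/-- Formulas of the first-order language of set theory with variables `0, 1, 2, ...`;
`all φ` quantifies over variable `0` of `φ`, the variable `n + 1` of `φ` being the
variable `n` of `all φ`. -/
inductive Fml
  | mem (i j : ℕ)
  | eq (i j : ℕ)
  | bot
  | imp (φ ψ : Fml)
  | all (φ : Fml)

/-- the valuation with value `x` at `0` and `v n` at `n + 1` -/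
def cons {M : Type*} (x : M) (v : ℕ → M) : ℕ → M
  | 0 => x
  | n + 1 => v n

/-- truth of a formula in the structure `(M, ∈)` under a valuation -/
def Sat {M : Type*} [Membership M M] : Fml → (ℕ → M) → Prop
  | .mem i j, v => v i ∈ v j
  | .eq i j, v => v i = v j
  | .bot, _ => False
  | .imp φ ψ, v => Sat φ v → Sat ψ v
  | .all φ, v => ∀ x, Sat φ (cons x v)

/-- `(M, ∈)` is a model of Zermelo-Fraenkel set theory ZF: the axioms of extensionality,
pairing, union, power set, infinity and foundation, and the schemas of separation and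
replacement for all formulas with parameters. -/
class IsZF (M : Type*) [Membership M M] : Prop where
  ext : ∀ x y : M, (∀ z : M, z ∈ x ↔ z ∈ y) → x = y
  pair : ∀ x y : M, ∃ z : M, ∀ w : M, w ∈ z ↔ w = x ∨ w = y
  union : ∀ x : M, ∃ y : M, ∀ z : M, z ∈ y ↔ ∃ w : M, w ∈ x ∧ z ∈ w
  power : ∀ x : M, ∃ y : M, ∀ z : M, z ∈ y ↔ ∀ w : M, w ∈ z → w ∈ x
  infinity : ∃ x : M, (∃ e : M, e ∈ x ∧ ∀ z : M, ¬ z ∈ e) ∧
    ∀ y : M, y ∈ x → ∃ s : M, s ∈ x ∧ ∀ z : M, z ∈ s ↔ z ∈ y ∨ z = y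
  foundation : ∀ x : M, (∃ z : M, z ∈ x) → ∃ z : M, z ∈ x ∧ ∀ w : M, w ∈ z → ¬ w ∈ x
  separation : ∀ (φ : Fml) (v : ℕ → M) (x : M), ∃ y : M, ∀ z : M,
    z ∈ y ↔ z ∈ x ∧ Sat φ (cons z v)
  replacement : ∀ (φ : Fml) (v : ℕ → M) (x : M),
    (∀ z : M, z ∈ x → ∃! w : M, Sat φ (cons w (cons z v))) →
    ∃ y : M, ∀ w : M, w ∈ y ↔ ∃ z : M, z ∈ x ∧ Sat φ (cons w (cons z v))

end Pool.Agent.Helper73.Sym
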